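import Pool.Agent.BoltzM.Bg.Defs
import Pool.Agent.BoltzM.Calc.Torus

/-! Bridges between `ContDiff` and the classes `Sm`, `SmC`, `SmD`; locality, scaling, lattice. -/

set_option autoImplicit false
set_option linter.unusedSectionVars false

open Pool.Agent.BoltzM.BoltzC Finset Filter Topology
open scoped ContDiff

noncomputable section

namespace Pool.Agent.BoltzM

variable [Dim]

section Normed

variable {G : Type*} [NormedAddCommGroup G] [NormedSpace ℝ G]

theorem hd_line_of_hasFDerivAt {f : E3 → G} {f' : E3 →L[ℝ] G} {x : E3} (hf : HasFDerivAt f f' x)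
    (v : E3) : HD (fun t : ℝ => f (x + t • v)) (f' v) 0 := by
  have h1 : HasDerivAt (fun t : ℝ => x + t • v) v 0 := by
    simpa using ((hasDerivAt_id (0 : ℝ)).smul_const v).const_add x
  have h2 : HasFDerivAt f f' ((fun t : ℝ => x + t • v) 0) := by simpa using hf
  exact (h2.comp_hasDerivAt (0 : ℝ) h1).hd

theorem dX_of_hasFDerivAt {f : E3 → G} {f' : E3 →L[ℝ] G} {x : E3} (hf : HasFDerivAt f f' x)
    (i : Ix) : dX i f x = f' (ev i) := dX_eq (hd_line_of_hasFDerivAt hf _)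

theorem dX_eq_fderiv {f : E3 → G} {x : E3} (hf : DifferentiableAt ℝ f x) (i : Ix) :
    dX i f x = fderiv ℝ f x (ev i) := dX_of_hasFDerivAt hf.hasFDerivAt i

theorem fderiv_eq_sum_dX {f : E3 → G} {x : E3} (hf : DifferentiableAt ℝ f x) (v : E3) :
    fderiv ℝ f x v = ∑ i, v i • dX i f x := by
  conv_lhs => rw [← sum_coord_ev v]
  simp only [map_sum, map_smul, dX_eq_fderiv hf]

theorem cd_diff {f : E3 → G} (hf : ContDiff ℝ ∞ f) (x : E3) : DifferentiableAt ℝ f x :=
  hf.differentiable (by simp) x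

theorem cd_dif {f : E3 → G} (hf : ContDiff ℝ ∞ f) : Dif f :=
  dif_of_hd (G' := fun i x => fderiv ℝ f x (ev i)) fun _ x =>
    hd_line_of_hasFDerivAt (cd_diff hf x).hasFDerivAt _

theorem cd_dX {f : E3 → G} (hf : ContDiff ℝ ∞ f) (i : Ix) : ContDiff ℝ ∞ (dX i f) := by
  have e : dX i f = fun x => fderiv ℝ f x (ev i) := funext fun x => dX_eq_fderiv (cd_diff hf x) i
  rw [e]
  exact (hf.fderiv_right (m := ∞) (by simp)).clm_apply contDiff_const

theorem cd_dXw {f : E3 → G} (hf : ContDiff ℝ ∞ f) (w : List Ix) :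
    ContDiff ℝ ∞ (dXw w f) := by
  induction w generalizing f with
  | nil => exact hf
  | cons i w ih => exact ih (cd_dX hf i)

theorem sm_of_cd {f : E3 → G} (hf : ContDiff ℝ ∞ f) : Sm f := fun w =>
  ⟨(cd_dXw hf w).continuous.comp continuous_snd, fun _ => cd_dif (cd_dXw hf w)⟩

end Normed

/-! ### Jointly smooth scalar fields -/

theorem CD.slice {a : ℝ → E3 → ℝ} (h : CD a) (s : ℝ) : ContDiff ℝ ∞ (a s) :=
  ContDiff.comp (f := fun x : E3 => (s, x)) h (contDiff_const.prodMk contDiff_id)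

theorem CD.time {a : ℝ → E3 → ℝ} (h : CD a) (x : E3) : ContDiff ℝ ∞ fun s => a s x :=
  ContDiff.comp h (contDiff_id.prodMk contDiff_const)

theorem CD.sm {a : ℝ → E3 → ℝ} (h : CD a) (s : ℝ) : Sm (a s) := sm_of_cd (h.slice s)

theorem CD.hasDerivAt {a : ℝ → E3 → ℝ} (h : CD a) (s : ℝ) (x : E3) :
    HasDerivAt (fun t => a t x) (dS a s x) s :=
  ((h.time x).differentiable (by simp) s).hasDerivAt

theorem dS_eq {a : ℝ → E3 → ℝ} {s : ℝ} {x : E3} {v : ℝ} (h : HasDerivAt (fun t => a t x) v s) :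
    dS a s x = v := h.deriv

theorem CD.dX {a : ℝ → E3 → ℝ} (h : CD a) (i : Ix) : CD fun s => dX i (a s) := by
  have e : (fun p : ℝ × E3 => BoltzC.dX i (a p.1) p.2) =
      fun p => fderiv ℝ (fun p : ℝ × E3 => a p.1 p.2) p ((0 : ℝ), ev i) := by
    funext p
    have h1 := (ContDiff.differentiable h (by simp) p).hasFDerivAt
    have h2 : HasFDerivAt (fun y : E3 => (p.1, y)) (ContinuousLinearMap.inr ℝ ℝ E3) p.2 :=
      hasFDerivAt_prodMk_right p.1 p.2
    exact dX_of_hasFDerivAt (HasFDerivAt.comp p.2 (f := fun y : E3 => (p.1, y)) h1 h2) i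
  unfold CD
  rw [e]
  exact (ContDiff.fderiv_right h (m := ∞) (by simp)).clm_apply contDiff_const

theorem CD.dS {a : ℝ → E3 → ℝ} (h : CD a) : CD (dS a) := by
  have e : (fun p : ℝ × E3 => BoltzM.dS a p.1 p.2) =
      fun p => fderiv ℝ (fun p : ℝ × E3 => a p.1 p.2) p ((1 : ℝ), (0 : E3)) := by
    funext p
    have h1 := (ContDiff.differentiable h (by simp) p).hasFDerivAt
    have h2 : HasDerivAt (fun t : ℝ => (t, p.2)) ((1 : ℝ), (0 : E3)) p.1 :=
      (hasDerivAt_id p.1).prodMk (hasDerivAt_const p.1 p.2)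
    exact dS_eq (HasFDerivAt.comp_hasDerivAt p.1 (f := fun t : ℝ => (t, p.2)) h1 h2)
  unfold CD
  rw [e]
  exact (ContDiff.fderiv_right h (m := ∞) (by simp)).clm_apply contDiff_const

theorem CD.dXw {a : ℝ → E3 → ℝ} (h : CD a) (w : List Ix) : CD fun s => dXw w (a s) := by
  induction w generalizing a with
  | nil => exact h
  | cons i w ih => exact ih (h.dX i)

theorem CD.smC {a : ℝ → E3 → ℝ} (h : CD a) : SmC a := fun w =>
  ⟨ContDiff.continuous (h.dXw w), fun s => cd_dif ((h.dXw w).slice s)⟩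

theorem CD.smD {a : ℝ → E3 → ℝ} (h : CD a) : SmD a (BoltzM.dS a) :=
  ⟨h.smC, h.dS.smC, fun s x => (h.hasDerivAt s x).hd⟩

theorem CD.of_space {f : E3 → ℝ} (h : ContDiff ℝ ∞ f) : CD fun _ => f := h.comp contDiff_snd

theorem CD.of_time {f : ℝ → ℝ} (h : ContDiff ℝ ∞ f) : CD fun s _ => f s := h.comp contDiff_fst

theorem CD.const (c : ℝ) : CD fun _ _ => c := contDiff_const

theorem CD.exp_mul (c : ℝ) : CD fun s _ => Real.exp (c * s) :=
  CD.of_time (f := fun s => Real.exp (c * s)) (by fun_prop)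

theorem CD.add {a b : ℝ → E3 → ℝ} (ha : CD a) (hb : CD b) : CD fun s x => a s x + b s x :=
  ContDiff.add ha hb

theorem CD.sub {a b : ℝ → E3 → ℝ} (ha : CD a) (hb : CD b) : CD fun s x => a s x - b s x :=
  ContDiff.sub ha hb

theorem CD.neg {a : ℝ → E3 → ℝ} (ha : CD a) : CD fun s x => -a s x := ContDiff.neg ha

theorem CD.mul {a b : ℝ → E3 → ℝ} (ha : CD a) (hb : CD b) : CD fun s x => a s x * b s x :=
  ContDiff.mul ha hb

theorem CD.div {a b : ℝ → E3 → ℝ} (ha : CD a) (hb : CD b) (h : ∀ s x, b s x ≠ 0) :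
    CD fun s x => a s x / b s x := ContDiff.div ha hb fun p => h p.1 p.2

theorem CD.inv {b : ℝ → E3 → ℝ} (hb : CD b) (h : ∀ s x, b s x ≠ 0) :
    CD fun s x => (b s x)⁻¹ := ContDiff.inv hb fun p => h p.1 p.2

theorem CD.pow {a : ℝ → E3 → ℝ} (ha : CD a) (n : ℕ) : CD fun s x => a s x ^ n :=
  ContDiff.pow ha n

theorem CD.rpow {a : ℝ → E3 → ℝ} (ha : CD a) (h : ∀ s x, a s x ≠ 0) (p : ℝ) :
    CD fun s x => a s x ^ p := ContDiff.rpow_const_of_ne ha fun q => h q.1 q.2

theorem CD.sqrt {a : ℝ → E3 → ℝ} (ha : CD a) (h : ∀ s x, a s x ≠ 0) :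
    CD fun s x => √(a s x) := ContDiff.sqrt ha fun q => h q.1 q.2

theorem CD.sum {ι : Type*} (S : Finset ι) {a : ι → ℝ → E3 → ℝ} (h : ∀ j ∈ S, CD (a j)) :
    CD fun s x => ∑ j ∈ S, a j s x := ContDiff.sum h

theorem per_dS {a : ℝ → E3 → ℝ} (h : ∀ s, Per (a s)) (s : ℝ) : Per (dS a s) := by
  intro i x
  unfold dS
  congr 1
  funext t
  exact h t i x

/-! ### Locality and scaling, for values in a topological vector space -/

section TVS

variable {F : Type*} [AddCommGroup F] [Module ℝ F] [TopologicalSpace F]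
  [IsTopologicalAddGroup F] [ContinuousSMul ℝ F] [T2Space F]

theorem dX_congr_at {f g : E3 → F} {x : E3} (h : f =ᶠ[𝓝 x] g) (i : Ix) :
    dX i f x = dX i g x := by
  unfold dX limUnder
  congr 1
  refine Filter.map_congr ?_
  have h1 : Tendsto (fun t : ℝ => x + t • ev i) (𝓝[≠] 0) (𝓝 x) := by
    have : Tendsto (fun t : ℝ => x + t • ev i) (𝓝 0) (𝓝 (x + (0 : ℝ) • ev i)) :=
      (by fun_prop : Continuous fun t : ℝ => x + t • ev i).tendsto 0
    rw [zero_smul, add_zero] at this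
    exact this.mono_left nhdsWithin_le_nhds
  filter_upwards [h1.eventually h] with t ht
  rw [ht, h.eq_of_nhds]

theorem dX_congr_loc {f g : E3 → F} {x : E3} (h : f =ᶠ[𝓝 x] g) (i : Ix) :
    dX i f =ᶠ[𝓝 x] dX i g :=
  (eventually_eventuallyEq_nhds.2 h).mono fun _ hy => dX_congr_at hy i

theorem dXw_congr_loc {f g : E3 → F} {x : E3} (h : f =ᶠ[𝓝 x] g) (w : List Ix) :
    dXw w f =ᶠ[𝓝 x] dXw w g := by
  induction w generalizing f g with
  | nil => exact h
  | cons i w ih => exact ih (dX_congr_loc h i)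

theorem dXw_congr_at {f g : E3 → F} {x : E3} (h : f =ᶠ[𝓝 x] g) (w : List Ix) :
    dXw w f x = dXw w g x := (dXw_congr_loc h w).eq_of_nhds

theorem hd_comp_mul {γ : ℝ → F} {v : F} (h : HD γ v 0) (c : ℝ) :
    HD (fun t => γ (c * t)) (c • v) 0 := by
  by_cases hc : c = 0
  · subst hc
    simpa using HD.const (γ 0) 0
  unfold HD at *
  have h1 : Tendsto (fun t : ℝ => c * t) (𝓝[≠] 0) (𝓝[≠] 0) := by
    refine tendsto_nhdsWithin_iff.2 ⟨?_, ?_⟩
    · have : Tendsto (fun t : ℝ => c * t) (𝓝 0) (𝓝 (c * 0)) :=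
        (continuous_const.mul continuous_id).tendsto 0
      rw [mul_zero] at this
      exact this.mono_left nhdsWithin_le_nhds
    · filter_upwards [self_mem_nhdsWithin] with t ht
      exact mul_ne_zero hc ht
  refine ((h.comp h1).const_smul c).congr fun t => ?_
  simp only [Function.comp, zero_add, mul_zero, smul_smul, mul_inv, mul_inv_cancel_left₀ hc]

theorem hd_line_comp_smul {G : E3 → F} (hG : Dif G) (c : ℝ) (i : Ix) (x : E3) :
    HD (fun t : ℝ => G (c • (x + t • ev i))) (c • dX i G (c • x)) 0 := by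
  refine (hd_comp_mul (hG i (c • x)) c).congr fun t => ?_
  rw [smul_add, smul_smul]

theorem dX_comp_smul {G : E3 → F} (hG : Dif G) (c : ℝ) (i : Ix) :
    dX i (fun x => G (c • x)) = fun x => c • dX i G (c • x) :=
  funext fun x => dX_eq (hd_line_comp_smul hG c i x)

theorem sm_comp_smul {G : E3 → F} (hG : Sm G) (c : ℝ) : Sm fun x => G (c • x) := by
  refine smC_coind (fun k => ∃ G : E3 → F, Sm G ∧ k = fun _ x => G (c • x)) ?_ ⟨G, hG, rfl⟩
  rintro k ⟨G, hG, rfl⟩
  exact ⟨hG.cont.comp (by fun_prop), fun i => ⟨_, ⟨_, (hG.dX i).const_smul c, rfl⟩,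
    fun _ x => hd_line_comp_smul hG.dif c i x⟩⟩

theorem dXw_comp_smul {G : E3 → F} (hG : Sm G) (c : ℝ) (w : List Ix) :
    dXw w (fun x => G (c • x)) = fun x => c ^ w.length • dXw w G (c • x) := by
  induction w generalizing G with
  | nil => funext x; simp
  | cons i w ih =>
    rw [dXw_cons, dX_comp_smul hG.dif, dXw_const_smul (sm_comp_smul (hG.dX i) c), ih (hG.dX i)]
    funext x
    rw [smul_smul, List.length_cons, pow_succ']
    rfl

end TVS

/-! ### Reduction to one period cell -/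

theorem exists_red (x : E3) : ∃ z : E3, (∃ n : Ix → ℤ, ∀ i, z i = n i) ∧ box (1 / 2) (x + z) := by
  refine ⟨WithLp.toLp 2 fun i => -(round (x i) : ℝ), ⟨fun i => -round (x i), fun i => by simp⟩,
    fun i => ?_⟩
  have := abs_sub_round (x i)
  simpa [sub_eq_add_neg] using this

/-- A periodic property holds everywhere when it holds on the box of half side `1/2`. -/
theorem per_red {p : E3 → Prop} (hp : Per p) (h : ∀ x, box (1 / 2) x → p x) (x : E3) : p x := by
  obtain ⟨z, ⟨n, hn⟩, hz⟩ := exists_red x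
  rw [← hp.add_of_int n hn x]
  exact h _ hz

theorem inn.to_box {x : E3} (h : inn x) : box (1 / 4) x := fun i => (h i).le

theorem isOpen_lt_box (a : ℝ) : IsOpen {x : E3 | ∀ i, |x i| < a} := by
  rw [Set.ofPred_forall]
  exact isOpen_iInter_of_finite fun i => isOpen_lt (by fun_prop) continuous_const

theorem eventually_box {a : ℝ} {x : E3} (h : ∀ i, |x i| < a) : ∀ᶠ y in 𝓝 x, box a y :=
  Filter.mem_of_superset ((isOpen_lt_box a).mem_nhds h) fun _ hy i => (hy i).le

theorem inn.eventually {x : E3} (h : inn x) : ∀ᶠ y in 𝓝 x, box (1 / 4) y := eventually_box h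

theorem box.mono {a b : ℝ} {x : E3} (h : box a x) (hab : a ≤ b) : box b x :=
  fun i => (h i).trans hab

theorem box.to_inn {a : ℝ} {x : E3} (h : box a x) (ha : a < 1 / 4) : inn x :=
  fun i => (h i).trans_lt ha

theorem sq_le_norm_sq (x : E3) (i : Ix) : x i ^ 2 ≤ ‖x‖ ^ 2 := by
  rw [EuclideanSpace.real_norm_sq_eq]
  exact single_le_sum (f := fun j => x j ^ 2) (fun _ _ => sq_nonneg _) (mem_univ i)

theorem norm_sq_ge_of_not_box {a : ℝ} (ha : 0 ≤ a) {x : E3} (h : ¬box a x) : a ^ 2 ≤ ‖x‖ ^ 2 := by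
  unfold box at h
  push Not at h
  obtain ⟨i, hi⟩ := h
  refine le_trans ?_ (sq_le_norm_sq x i)
  rw [← sq_abs (x i)]
  exact pow_le_pow_left₀ ha hi.le 2

theorem norm_sq_ge_of_not_inn {x : E3} (h : ¬inn x) : 1 / 16 ≤ ‖x‖ ^ 2 := by
  unfold inn at h
  push Not at h
  obtain ⟨i, hi⟩ := h
  refine le_trans ?_ (sq_le_norm_sq x i)
  rw [← sq_abs (x i)]
  nlinarith

end Pool.Agent.BoltzM
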