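import Pool.Agent.BoltzM.Spec.Bg

/-! Existence of the periodic cut-off data. -/

set_option autoImplicit false

open Pool.Agent.BoltzM.BoltzC Finset Filter Topology
open scoped ContDiff

noncomputable section

namespace Pool.Agent.BoltzM

variable [Dim]

/-- The signed distance to the nearest integer. -/
def red (t : ℝ) : ℝ := t - round t

theorem red_add_one (t : ℝ) : red (t + 1) = red t := by
  unfold red
  rw [round_add_one]
  push_cast
  ring

theorem red_eq {t : ℝ} (h : |t| < 1 / 2) : red t = t := by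
  have : round t = 0 := round_eq_zero_iff.2 ⟨by linarith [abs_lt.1 h], by linarith [abs_lt.1 h]⟩
  simp [red, this]

theorem abs_red_le (t : ℝ) : |red t| ≤ 1 / 2 := abs_sub_round t

theorem abs_red_eq {t : ℝ} (h : |t| ≤ 1 / 2) : |red t| = |t| := by
  rcases h.lt_or_eq with h | h
  · rw [red_eq h]
  · refine le_antisymm (h ▸ abs_red_le t) ?_
    by_cases h0 : round t = 0
    · simp [red, h0]
    · have h1 : (1 : ℝ) ≤ |(round t : ℝ)| := by exact_mod_cast Int.one_le_abs h0
      have h2 := abs_sub_abs_le_abs_sub (round t : ℝ) t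
      rw [abs_sub_comm] at h2
      unfold red
      linarith

theorem cd_red {f : ℝ → ℝ} (hf : ContDiff ℝ ∞ f) (c : ℝ) (h : ∀ t, 2 / 5 ≤ |t| → f t = c) :
    ContDiff ℝ ∞ fun t => f (red t) := by
  refine contDiff_iff_contDiffAt.2 fun t0 => ?_
  by_cases h0 : |t0 - round t0| < 1 / 2
  · have hev : ∀ᶠ t : ℝ in 𝓝 t0, |t - round t0| < 1 / 2 :=
      (isOpen_lt (f := fun t : ℝ => |t - round t0|) (by fun_prop) continuous_const).mem_nhds h0
    have h1 : ContDiff ℝ ∞ fun t : ℝ => f (t - round t0) :=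
      hf.comp (contDiff_id.sub contDiff_const)
    refine h1.contDiffAt.congr_of_eventuallyEq (hev.mono fun t ht => ?_)
    have h2 := red_eq ht
    unfold red at h2 ⊢
    rw [round_sub_intCast] at h2
    push_cast at h2
    beta_reduce
    congr 1
    linarith
  · have hev : ∀ᶠ t : ℝ in 𝓝 t0, |t - t0| < 1 / 10 :=
      (isOpen_lt (f := fun t : ℝ => |t - t0|) (by fun_prop) continuous_const).mem_nhds (by simp)
    refine (contDiffAt_const (c := c)).congr_of_eventuallyEq (hev.mono fun t ht => h _ ?_)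
    have h1 := round_le t0 (round t)
    have h2 := abs_sub_le t0 t (round t : ℝ)
    rw [abs_sub_comm t0 t] at h2
    unfold red
    linarith [not_lt.1 h0]

/-- The bump equal to one on `[-1/8, 1/8]` and vanishing outside `(-1/5, 1/5)`. -/
def bump1 : ContDiffBump (0 : ℝ) := ⟨1 / 8, 1 / 5, by norm_num, by norm_num⟩

/-- The bump equal to one on `[-1/4, 1/4]` and vanishing outside `(-2/5, 2/5)`. -/
def bump2 : ContDiffBump (0 : ℝ) := ⟨1 / 4, 2 / 5, by norm_num, by norm_num⟩

theorem bump_one (b : ContDiffBump (0 : ℝ)) {t : ℝ} (h : |t| ≤ b.rIn) : b t = 1 :=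
  b.one_of_mem_closedBall (by simpa using h)

theorem bump_zero (b : ContDiffBump (0 : ℝ)) {t : ℝ} (h : b.rOut ≤ |t|) : b t = 0 :=
  b.zero_of_le_dist (by simpa using h)

theorem per_coord {α : Type*} (φ : (Ix → ℝ) → α) : Per fun x : E3 => φ fun i => red (x i) := by
  intro j x
  beta_reduce
  congr 1
  funext i
  by_cases h : i = j
  · subst h
    simpa [ev] using red_add_one (x i)
  · simp [ev, h]

theorem cut_exists : Nonempty Cut := by
  have hc : ∀ i : Ix, ContDiff ℝ ∞ fun x : E3 => x i := fun i => by fun_prop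
  have h1 : ContDiff ℝ ∞ fun t => bump1 (red t) :=
    cd_red bump1.contDiff 0 fun t ht => bump_zero bump1 (le_trans (by norm_num [bump1]) ht)
  have h2 : ContDiff ℝ ∞ fun t => bump2 (red t) * red t :=
    cd_red (f := fun t => bump2 t * t) (bump2.contDiff.mul contDiff_id) 0 fun t ht => by
      rw [bump_zero bump2 ht, zero_mul]
  have h3 : ContDiff ℝ ∞ fun t => bump2 (red t) * red t ^ 2 + (1 - bump2 (red t)) * (1 / 4) :=
    cd_red (f := fun t => bump2 t * t ^ 2 + (1 - bump2 t) * (1 / 4))
      ((bump2.contDiff.mul (contDiff_id.pow 2)).add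
        ((contDiff_const.sub bump2.contDiff).mul contDiff_const)) (1 / 4) fun t ht => by
      rw [bump_zero bump2 ht]; ring
  have hsq : ∀ t, red t ^ 2 ≤ 1 / 4 := fun t => by
    have := abs_red_le t
    rw [← sq_abs]
    nlinarith [abs_nonneg (red t)]
  refine ⟨⟨fun x => WithLp.toLp 2 fun i => bump2 (red (x i)) * red (x i),
    fun x => ∏ i, bump1 (red (x i)),
    fun x => ∑ i, (bump2 (red (x i)) * red (x i) ^ 2 + (1 - bump2 (red (x i))) * (1 / 4)),
    contDiff_euclidean.2 fun i => h2.comp (hc i), contDiff_prod fun i _ => h1.comp (hc i),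
    ContDiff.sum fun i _ => h3.comp (hc i),
    per_coord fun v => (WithLp.toLp 2 fun i => bump2 (v i) * v i : E3),
    per_coord fun v => ∏ i, bump1 (v i),
    per_coord fun v => ∑ i, (bump2 (v i) * v i ^ 2 + (1 - bump2 (v i)) * (1 / 4)),
    fun x hx => ?_, fun x hx => ?_, fun x hx => ?_, fun x hx hb => ?_,
    fun x => prod_nonneg fun i _ => bump1.nonneg,
    fun x => prod_le_one (fun i _ => bump1.nonneg) fun i _ => bump1.le_one,
    fun x hx => ?_, fun x => ?_⟩⟩
  · ext i
    simp only [red_eq ((hx i).trans_lt (by norm_num)), bump_one bump2 (hx i), one_mul]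
  · rw [EuclideanSpace.real_norm_sq_eq]
    refine sum_congr rfl fun i _ => ?_
    rw [red_eq ((hx i).trans_lt (by norm_num)), bump_one bump2 (hx i)]
    ring
  · refine prod_eq_one fun i _ => ?_
    rw [red_eq ((hx i).trans_lt (by norm_num)), bump_one bump1 (hx i)]
  · unfold box at hb
    push Not at hb
    obtain ⟨i, hi⟩ := hb
    exact prod_eq_zero (mem_univ i) (bump_zero bump1 (by rw [abs_red_eq (hx i)]; exact hi.le))
  · have h4 : ‖x‖ ^ 2 ≤
        ∑ i, (bump2 (red (x i)) * red (x i) ^ 2 + (1 - bump2 (red (x i))) * (1 / 4)) := by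
      rw [EuclideanSpace.real_norm_sq_eq]
      refine sum_le_sum fun i _ => ?_
      have e : red (x i) ^ 2 = x i ^ 2 := by rw [← sq_abs, abs_red_eq (hx i), sq_abs]
      have h5 := hsq (x i)
      have h6 : bump2 (red (x i)) ≤ 1 := bump2.le_one
      rw [e] at h5 ⊢
      nlinarith
    linarith [sq_nonneg ‖x‖]
  · have h4 : ∀ i : Ix,
        bump2 (red (x i)) * red (x i) ^ 2 + (1 - bump2 (red (x i))) * (1 / 4) ≤ 1 := fun i => by
      have h5 := hsq (x i)
      have h7 : 0 ≤ bump2 (red (x i)) := bump2.nonneg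
      nlinarith
    exact (sum_le_Ix h4).trans_eq (mul_one _)

end Pool.Agent.BoltzM
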