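import Pool.Agent.BoltzM.Bg.HypBd

/-! The field `hyp`: repulsivity, for small `nu` and large `s`. -/

set_option autoImplicit false

open Pool.Agent.BoltzM.BoltzC Finset Filter
open Pool.Agent.MP_187b32_an.PM (NF QF NF_nonneg)

namespace Pool.Agent.BoltzM

variable [Dim]

namespace Hyp

omit [Dim] in
theorem prod_ge {m M : ℝ} (h : |m| ≤ M) (x y : ℝ) :
    -(M / 2 * x ^ 2) + -(M / 2 * y ^ 2) ≤ m * (x * y) := by
  obtain ⟨a, b⟩ := abs_le.1 h
  nlinarith [mul_nonneg (sub_nonneg.2 a) (sq_nonneg (x + y)),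
    mul_nonneg (sub_nonneg.2 b) (sq_nonneg (x - y))]

theorem QF_ge {M : ℝ} {D : Ix → Ix → ℝ} {g c : Ix → ℝ} (hD : ∀ p i, |D p i| ≤ M)
    (hg : ∀ i, |g i| ≤ M) (hc : ∀ i, |c i| ≤ M) (α : ℝ) (a : Ix → ℝ) (b : Ix → Ix → ℝ) :
    (α - 3 * dd * M) * NF a b ≤ QF α D g c a b := by
  have hM : 0 ≤ M := (abs_nonneg _).trans (hg 0)
  have b0 : 0 ≤ ∑ p, ∑ i, b p i ^ 2 := sum_nonneg fun _ _ => sum_nonneg fun _ _ => sq_nonneg _
  have s3 : ∑ i, b i i ^ 2 ≤ ∑ p, ∑ i, b p i ^ 2 := sum_le_sum fun p _ =>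
    single_le_sum (f := fun i => b p i ^ 2) (fun _ _ => sq_nonneg _) (mem_univ p)
  have t1 := sum_le_sum fun p (_ : p ∈ univ) => sum_le_sum fun i (_ : i ∈ univ) =>
    add_le_add (prod_ge (hD p i) (a p) (a i))
      (sum_le_sum fun q (_ : q ∈ univ) => prod_ge (hD p i) (b p q) (b i q))
  have t2 := sum_le_sum fun p (_ : p ∈ univ) => sum_le_sum fun i (_ : i ∈ univ) =>
    prod_ge ((abs_neg _).trans_le (hg i)) (a p) (b p i)
  have t3 := sum_le_sum fun p (_ : p ∈ univ) => add_le_add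
    (sum_le_sum fun i (_ : i ∈ univ) => prod_ge (hc p) (a p) (b i i))
    (sum_le_sum fun i (_ : i ∈ univ) => prod_ge (hc p) (a i) (b p i))
  simp only [sum_add_distrib, sum_const_Ix, sum_neg_distrib, neg_mul, ← mul_sum] at t1 t2 t3
  have h1 := mul_le_mul_of_nonneg_left s3 (mul_nonneg dr_pos.le hM)
  have h2 := mul_le_mul_of_nonneg_right two_le_dr (mul_nonneg hM b0)
  simp only [QF, NF, mul_add, sum_add_distrib]
  nlinarith

theorem QF_split (t α α' : ℝ) (D : Ix → Ix → ℝ) (g g' c a : Ix → ℝ) (b : Ix → Ix → ℝ) :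
    QF (t * α + α') (fun p i => t * D p i) (fun i => t * g i + g' i) (fun i => t * c i) a b =
      t * QF α D g c a b + QF α' (fun _ _ => 0) g' (fun _ => 0) a b := by
  simp only [QF, add_mul, mul_assoc t, sum_add_distrib, ← mul_sum, zero_mul, sum_const_zero]
  ring

theorem cq_le : |cq| ≤ 2 := by
  unfold cq
  rw [abs_of_nonneg (Real.sqrt_nonneg _)]
  refine Real.sqrt_le_iff.2 ⟨by norm_num, ?_⟩
  rw [div_le_iff₀ dr_pos]
  linarith [two_le_dr]

omit [Dim] in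
theorem abs_mul_le {a b M N : ℝ} (ha : |a| ≤ M) (hb : |b| ≤ N) : |a * b| ≤ M * N := by
  rw [abs_mul]
  exact mul_le_mul ha hb (abs_nonneg _) ((abs_nonneg _).trans ha)

theorem sum_mul_le {a b : Ix → ℝ} {M N : ℝ} (ha : ∀ i, |a i| ≤ M) (hb : ∀ i, |b i| ≤ N) :
    ∑ i, a i * b i ≤ dd * (M * N) :=
  sum_le_Ix fun i => (le_abs_self _).trans (abs_mul_le (ha i) (hb i))

variable {B : BgD} {K : ℕ → ℝ} {c0 : ℝ} {U : Ix → E3 → ℝ} {C : E3 → ℝ}

/-- Size of a coefficient and of its gradient. -/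
theorem coef_le {a : E3 → ℝ} {s : ℝ} (ha : Dif a)
    (h : SymBd K 0 (B.Lam s) (fun x => B.Lam s x ^ (1 - B.r)) a) (x : E3) :
    |Real.exp (-B.r * s) * a x| ≤ K 0 * (B.mu s x * B.Lam s x) ∧
      ∀ i, |dX i (fun y => Real.exp (-B.r * s) * a y) x| ≤ K 1 * B.mu s x := by
  have he := Real.exp_pos (-B.r * s)
  have hΛ := B.Lam_pos s x
  refine ⟨?_, fun i => ?_⟩
  · have := h [] le_rfl x
    simp only [List.length_nil, pow_zero, one_mul, dXw_nil] at this
    rw [abs_mul, abs_of_pos he, ← B.mu_Lam, mul_left_comm]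
    exact mul_le_mul_of_nonneg_left this he.le
  · have := h [i] (Nat.zero_le _) x
    simp only [List.length_singleton, pow_one, dXw_cons, dXw_nil] at this
    have e : dX i (fun y => Real.exp (-B.r * s) * a y) x = Real.exp (-B.r * s) * dX i a x :=
      congrFun (dX_const_smul ha _ i) x
    rw [e, abs_mul, abs_of_pos he]
    refine le_of_mul_le_mul_right ?_ hΛ
    rw [mul_assoc (K 1), ← B.mu_Lam, mul_left_comm, mul_assoc, mul_comm _ (B.Lam s x)]
    exact mul_le_mul_of_nonneg_left this he.le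

/-- The form of the background at the scale of the profile. -/
noncomputable def Q0 (B : BgD) (s : ℝ) (x : E3) (a : Ix → ℝ) (b : Ix → Ix → ℝ) : ℝ :=
  QF (B.ph s x - (dS B.ph s x + ∑ i, (B.fld s).u i x * dX i (B.ph s) x))
    (fun p i => B.ph s x * dX p ((B.fld s).u i) x)
    (fun i => cq * (B.fld s).c x * dX i (B.ph s) x)
    (fun i => cq * B.ph s x * dX i (B.fld s).c x) a b

/-- The constant of the far region. -/
noncomputable def cF (K : ℕ → ℝ) : ℝ := K 0 + dd * (K 0 * K 1) + 3 * dd * (2 * K 1 * (K 0 + 1))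

theorem Q0_far (h : B.Pre K c0 U C) {s : ℝ} (hs : 0 ≤ s) (x : E3) (a : Ix → ℝ)
    (b : Ix → Ix → ℝ) : (1 - cF K * B.mu s x) * B.ph s x * NF a b ≤ Q0 B s x a b := by
  have hΛ := B.Lam_pos s x
  have hμ := B.mu_pos s x
  have hμ1 := B.mu_le_one (by linarith [h.r_gt]) s x
  have hφ := B.one_le_ph s x
  have k0 := h.K_pos 0
  have k1 := h.K_pos 1
  have hd := dr_pos
  have bu := fun i => coef_le (CD.sm (h.cd_u i) s).dif ((h.sym s hs).1 i) x
  have bc := coef_le (CD.sm h.cd_C s).dif (h.sym s hs).2.1 x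
  have b1 : |dS B.ph s x| ≤ K 0 * B.mu s x := by simpa using (h.symF s hs).2 [] le_rfl x
  have b2 : ∀ i, |dX i (B.ph s) x| ≤ K 1 / B.Lam s x := fun i => by
    have t := (h.symF s hs).1 [i] (Nat.zero_le _) x
    simp only [List.length_singleton, pow_one, dXw_cons, dXw_nil] at t
    rw [dX_sub (B.cd_ph.sm s).dif (Sm.const 1).dif, dX_const] at t
    simp only [sub_zero] at t
    rw [le_div_iff₀' hΛ]
    exact t.trans (mul_le_of_le_one_right k1.le hμ1)
  have e : K 0 * (B.mu s x * B.Lam s x) * (K 1 / B.Lam s x) = K 0 * K 1 * B.mu s x := by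
    field_simp
  have b3 := sum_mul_le (fun i => (bu i).1) b2
  have p1 : B.mu s x ≤ B.mu s x * B.ph s x := le_mul_of_one_le_right hμ.le hφ
  have p2 : |B.ph s x| ≤ B.ph s x := (abs_of_pos (B.ph_pos s x)).le
  have p3 := mul_pos k1 (hμ.trans_le p1)
  have p4 := mul_pos k0 p3
  refine le_trans (mul_le_mul_of_nonneg_right ?_ (NF_nonneg a b))
    (QF_ge (M := 2 * K 1 * (K 0 + 1) * (B.mu s x * B.ph s x)) (fun p i => ?_) (fun i => ?_)
      (fun i => ?_) _ a b)
  · have b4 : ∑ i, (B.fld s).u i x * dX i (B.ph s) x ≤ dd * (K 0 * K 1 * B.mu s x) := e ▸ b3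
    have p5 := mul_le_mul_of_nonneg_left p1 (by positivity : 0 ≤ K 0 + dd * (K 0 * K 1))
    unfold cF
    linarith [le_abs_self (dS B.ph s x)]
  · exact (abs_mul_le p2 ((bu i).2 p)).trans (by linarith)
  · rw [mul_assoc]
    refine (abs_mul_le cq_le ((abs_mul_le bc.1 (b2 i)).trans_eq e)).trans ?_
    linarith [mul_le_mul_of_nonneg_left p1 (mul_pos k0 k1).le]
  · exact (abs_mul_le (abs_mul_le cq_le p2) (bc.2 i)).trans (by linarith)

/-- Near the lattice the form is that of the profile. -/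
theorem Q0_near (h : B.Pre K c0 U C) {lam : ℝ}
    (hrep : ∀ (y : E3) (a : Ix → ℝ) (b : Ix → Ix → ℝ), lam * (1 + B.F y) * NF a b ≤
      QF (1 + B.F y - ∑ i, (y i + U i y) * dX i B.F y) (fun p i => (1 + B.F y) * dX p (U i) y)
        (fun i => cq * C y * dX i B.F y) (fun i => cq * (1 + B.F y) * dX i C y) a b)
    (s : ℝ) (a : Ix → ℝ) (b : Ix → Ix → ℝ) (x : E3) :
    B.cut.rho2 x ≤ 1 / 1200 → lam * B.ph s x * NF a b ≤ Q0 B s x a b := by
  have hr := (BgD.fldC_of h.cd_u h.cd_C h.per_u h.per_C h.C_pos).reg s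
  refine per_red (p := fun x => B.cut.rho2 x ≤ 1 / 1200 → lam * B.ph s x * NF a b ≤ Q0 B s x a b)
    (fun j y => ?_) (fun z hz hx => ?_) x
  · simp only [Q0, B.cut.per_rho2 j y, B.per_ph s j y, per_dS B.per_ph s j y, (hr.u _).2 j y,
      hr.c.2 j y, (B.per_ph s).dX _ j y, (hr.u _).2.dX _ j y, hr.c.2.dX _ j y]
  have hz' : ∀ j, |z j| < 1 / 8 := fun j => by
    have h1 := abs_coord_le_nrm z j
    have h2 := B.cut.rho2_ge z hz
    nlinarith [norm_nonneg z]
  have h8 : box (1 / 8) z := fun j => (hz' j).le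
  have e0 : Real.exp (-B.r * s) * Real.exp ((B.r - 1) * s) * Real.exp s = 1 := by
    rw [← Real.exp_add, ← Real.exp_add, Real.exp_eq_one_iff]; ring
  have key : ∀ {f Φ : E3 → ℝ}, Sm Φ →
      (∀ y, box (1 / 8) y → f y = Real.exp ((B.r - 1) * s) * Φ (Real.exp s • y)) → ∀ p,
      dX p (fun y => Real.exp (-B.r * s) * f y) z = dX p Φ (Real.exp s • z) := by
    intro f Φ hΦ he p
    rw [dX_congr_at (g := fun y => (Real.exp (-B.r * s) * Real.exp ((B.r - 1) * s)) •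
      Φ (Real.exp s • y)) ((eventually_box hz').mono fun y hy => by
        simp only [he y hy, smul_eq_mul, mul_assoc]),
      congrFun (dX_const_smul (sm_comp_smul hΦ _).dif _ p) z,
      congrFun (dX_comp_smul hΦ.dif (Real.exp s) p) z, smul_smul, e0, one_smul]
  have e1 : B.ph s z = 1 + B.F (Real.exp s • z) := by
    rw [B.ph_eq, B.cut.resc_eq _ _ s h8]; simp
  have e2 : ∀ i, dX i (B.ph s) z = Real.exp s * dX i B.F (Real.exp s • z) := fun i => by
    rw [funext (B.ph_eq s), dX_add (Sm.const 1).dif ((B.cut.cd_resc 0 B.cd_F).sm s).dif, dX_const]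
    simp only [B.cut.dX_resc 0 B.cd_F s hz' i]
    simp
  have e3 : dS B.ph s z = ∑ i, (Real.exp s • z) i * dX i B.F (Real.exp s • z) := by
    rw [B.dS_ph, B.cut.resc_eq _ _ s h8]; simp
  have e4 : ∀ i, (B.fld s).u i z * dX i (B.ph s) z =
      U i (Real.exp s • z) * dX i B.F (Real.exp s • z) := fun i => by
    simp only [BgD.fld, e2, (h.scal s z h8).1 i]
    linear_combination (U i (Real.exp s • z) * dX i B.F (Real.exp s • z)) * e0
  have e5 : ∀ i, cq * (B.fld s).c z * dX i (B.ph s) z =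
      cq * C (Real.exp s • z) * dX i B.F (Real.exp s • z) := fun i => by
    simp only [BgD.fld, e2, (h.scal s z h8).2]
    linear_combination (cq * C (Real.exp s • z) * dX i B.F (Real.exp s • z)) * e0
  have e6 : ∀ p i, dX p ((B.fld s).u i) z = dX p (U i) (Real.exp s • z) := fun p i =>
    key (sm_of_cd (h.cd_U' i)) (fun y hy => (h.scal s y hy).1 i) p
  have e7 : ∀ p, dX p (B.fld s).c z = dX p C (Real.exp s • z) :=
    key (sm_of_cd h.cd_C') fun y hy => (h.scal s y hy).2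
  have := hrep (Real.exp s • z) a b
  simp only [add_mul (_ : ℝ) (U _ _), sum_add_distrib] at this
  simp only [Q0, e3, e4, e5, e6, e7, e1]
  exact this

/-- The terms with a derivative of the length scale `sig0` are small. -/
theorem QF_sig (h : B.Pre K c0 U C) {Kr s : ℝ} (hK0 : 0 < Kr)
    (hK : ∀ i x, |dX i B.cut.rho2 x| ≤ Kr * √(B.cut.rho2 x)) (hs : 0 ≤ s) (x : E3) (a : Ix → ℝ)
    (b : Ix → Ix → ℝ) : B.sig0 s x * Q0 B s x a b - (1 - Real.exp (-s) / B.SS s x +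
      7 * dd * K 0 * Kr * B.nu * (Real.exp (-s) / B.SS s x)) * (B.sig s x * NF a b) ≤
    QF (-dS B.sig s x - ∑ i, (B.fld s).u i x * dX i (B.sig s) x)
      (fun p i => B.sig s x * dX p ((B.fld s).u i) x)
      (fun i => cq * ((B.fld s).c x * dX i (B.sig s) x))
      (fun i => cq * (B.sig s x * dX i (B.fld s).c x)) a b := by
  have hΛ := B.Lam_pos s x
  have hS := B.SS_pos s x
  have hφ := B.ph_pos s x
  have hl := Real.exp_pos (-s)
  have k0 := h.K_pos 0
  have hν := h.nu_pos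
  have hd := dr_pos
  have b0 : K 0 * (B.mu s x * B.Lam s x) ≤ K 0 * Real.exp (-s) :=
    mul_le_mul_of_nonneg_left ((le_div_iff₀ hΛ).1 (B.mu_le h.r_gt.le s x)) k0.le
  have b1 := fun i => B.abs_dX_sig0_le hK hK0.le hν.le s i x
  have b2 : ∑ i, (B.fld s).u i x * dX i (B.sig0 s) x ≤ _ := sum_mul_le (fun i =>
    (coef_le (CD.sm (h.cd_u i) s).dif ((h.sym s hs).1 i) x).1.trans b0) b1
  have b3 : |(B.fld s).c x| ≤ K 0 * Real.exp (-s) :=
    (coef_le (CD.sm h.cd_C s).dif (h.sym s hs).2.1 x).1.trans b0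
  have b4 := fun i => abs_mul_le (abs_mul_le cq_le (abs_mul_le b3 (b1 i))) (abs_of_pos hφ).le
  have b5 : Real.exp (-s) ≤ Real.exp (-s) / B.SS s x * B.sig0 s x := by
    rw [div_mul_eq_mul_div, le_div_iff₀ hS]
    exact mul_le_mul_of_nonneg_left (B.SS_le_sig0 s x) hl.le
  have p0 : |(0 : ℝ)| ≤ 2 * (K 0 * Real.exp (-s) * (Kr * B.nu)) * B.ph s x := by
    rw [abs_zero]; positivity
  have b6 := QF_ge (fun _ _ => p0) b4 (fun _ => p0) (-((1 - Real.exp (-s) / B.SS s x) * B.sig s x) -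
    B.ph s x * ∑ i, (B.fld s).u i x * dX i (B.sig0 s) x) a b
  refine le_trans (add_le_add le_rfl (le_trans ?_ b6)) (le_of_eq ((QF_split ..).symm.trans ?_))
  · rw [← mul_assoc, ← neg_mul]
    refine mul_le_mul_of_nonneg_right ?_ (NF_nonneg a b)
    have t1 := mul_le_mul_of_nonneg_left b2 hφ.le
    have t2 := mul_le_mul_of_nonneg_left b5
      (by positivity : 0 ≤ 7 * dd * K 0 * Kr * B.nu * B.ph s x)
    unfold BgD.sig
    linarith
  · congr 1
    · simp only [B.dS_sig, B.dX_sig, BgD.sig, mul_add, sum_add_distrib, mul_left_comm _ (B.sig0 s x),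
        ← mul_assoc _ _ (B.ph s x), ← mul_sum, ← sum_mul]
      ring
    · funext p i
      simp only [BgD.sig]
      ring
    · funext i
      rw [B.dX_sig]
      ring
    · funext i
      simp only [BgD.sig]
      ring

section final

variable (h : B.Pre K c0 U C) {lam Kr δ : ℝ} (hlam : 0 < lam)
  (hrep : ∀ (y : E3) (a : Ix → ℝ) (b : Ix → Ix → ℝ), lam * (1 + B.F y) * NF a b ≤
    QF (1 + B.F y - ∑ i, (y i + U i y) * dX i B.F y) (fun p i => (1 + B.F y) * dX p (U i) y)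
      (fun i => cq * C y * dX i B.F y) (fun i => cq * (1 + B.F y) * dX i C y) a b)
  (hK0 : 0 < Kr) (hK : ∀ i x, |dX i B.cut.rho2 x| ≤ Kr * √(B.cut.rho2 x))
  (hδ : 0 < δ) (hε : 4 * cF K * δ ^ (B.r - 1) ≤ 1) (hη : 7 * dd * K 0 * Kr * B.nu ≤ 1 / 4)
  (hη' : 7 * dd * K 0 * Kr * B.nu ≤ lam / 4) (hν : B.nu ≤ lam / 4 * δ)
include h hlam hrep hK0 hK hδ hε hη hη' hν

theorem rep_of {s : ℝ} (hs : 0 ≤ s) (hl : Real.exp (-s) ≤ δ / 40) (x : E3) (a : Ix → ℝ)
    (b : Ix → Ix → ℝ) : min (1 / 2) (lam / 2) * B.mu s x * B.sig s x * NF a b ≤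
    QF (-dS B.sig s x - ∑ i, (B.fld s).u i x * dX i (B.sig s) x)
      (fun p i => B.sig s x * dX p ((B.fld s).u i) x)
      (fun i => cq * ((B.fld s).c x * dX i (B.sig s) x))
      (fun i => cq * (B.sig s x * dX i (B.fld s).c x)) a b := by
  refine le_trans ?_ (QF_sig h hK0 hK hs x a b)
  have hΛ := B.Lam_pos s x
  have hS := B.SS_pos s x
  have hμ := B.mu_pos s x
  have hl0 := Real.exp_pos (-s)
  have hσN := mul_nonneg (B.sig_pos s x).le (NF_nonneg a b)
  have q0 := B.mu_le h.r_gt.le s x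
  have q1 : Real.exp (-s) / B.Lam s x ≤ Real.exp (-s) / B.SS s x :=
    div_le_div_of_nonneg_left hl0.le hS (B.SS_le_Lam h.nu_pos.le h.nu_le s x)
  have q2 : Real.exp (-s) / B.SS s x ≤ 1 := (div_le_one hS).2 (B.exp_neg_le_SS s x)
  have q3 := div_pos hl0 hΛ
  have e : B.sig s x = B.sig0 s x * B.ph s x := rfl
  by_cases hc : Real.exp (-s) / B.Lam s x ≤ δ
  · have a1 : 4 * cF K * B.mu s x ≤ Real.exp (-s) / B.SS s x := by
      have t0 : 0 ≤ 4 * cF K := by
        have := h.K_pos 0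
        have := h.K_pos 1
        unfold cF
        positivity
      have t1 := Real.rpow_le_rpow q3.le hc (by linarith [h.r_gt] : 0 ≤ B.r - 1)
      have t3 := mul_le_mul_of_nonneg_right ((mul_le_mul_of_nonneg_left t1 t0).trans hε) q3.le
      rw [B.mu_split]
      linarith
    have a2 := mul_le_mul_of_nonneg_left (Q0_far h hs x a b) (B.sig0_pos s x).le
    have a6 := mul_le_mul_of_nonneg_right a1 hσN
    have a7 := mul_le_mul_of_nonneg_right (q0.trans q1) hσN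
    have a8 := mul_le_mul_of_nonneg_right (min_le_left (1 / 2) (lam / 2)) (mul_nonneg hμ.le hσN)
    have a9 := mul_le_mul_of_nonneg_right hη (mul_nonneg (q3.le.trans q1) hσN)
    rw [e] at *
    linarith
  · have a0 : δ * √(B.cut.rho2 x) ≤ Real.exp (-s) := by
      have := (lt_div_iff₀ hΛ).1 (not_le.1 hc)
      nlinarith [B.sqrt_rho2_le_Lam s x]
    have a1 : √(B.cut.rho2 x) ≤ 1 / 40 := le_of_mul_le_mul_left (by linarith) hδ
    have a2 : 1 - lam / 4 ≤ Real.exp (-s) / B.SS s x := by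
      rw [le_div_iff₀ hS]
      have t1 := mul_le_mul_of_nonneg_right hν (Real.sqrt_nonneg (B.cut.rho2 x))
      have t2 := mul_le_mul_of_nonneg_left (a0.trans (B.exp_neg_le_SS s x)) hlam.le
      linarith [B.SS_le h.nu_pos.le s x]
    have a3 := mul_le_mul_of_nonneg_left (Q0_near h hrep s a b x
      ((Real.sqrt_le_iff.1 a1).2.trans (by norm_num))) (B.sig0_pos s x).le
    have a4 := mul_le_mul_of_nonneg_right a2 hσN
    have a6 := mul_le_mul_of_nonneg_right
      (mul_le_mul hη' q2 (q3.le.trans q1) (by positivity)) hσN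
    have a8 := mul_le_mul_of_nonneg_right (mul_le_mul (min_le_right (1 / 2) (lam / 2))
      ((q0.trans q1).trans q2) hμ.le (by positivity)) hσN
    rw [e] at *
    linarith

theorem hyp_of : B.Hyp := by
  obtain ⟨K', e1, e2, e3⟩ := (h.bd_ev.and ((h.wt_ev (ωt := fun a => dS (B.om a)) B.sy_om_unif
    B.per_om B.om_pos fun a s x ha ha' _ => h.dS_om_le s x ha ha').and
    (h.wt_ev (ωt := fun a => dS (B.omH a)) h.sy_omH (BgD.per_omH h.per_C) h.omH_pos
      fun a s x ha ha' hs => h.dS_omH_le x ha ha' hs))).exists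
  refine ⟨K', min (1 / 2) (lam / 2), max 0 (-Real.log (δ / 40)), by positivity,
    le_max_left _ _, fun s hs => ?_⟩
  have hs0 : 0 ≤ s := (le_max_left _ _).trans hs
  have hl : Real.exp (-s) ≤ δ / 40 := by
    rw [← Real.le_log_iff_exp_le (by positivity)]
    linarith [le_max_right 0 (-Real.log (δ / 40))]
  obtain ⟨f1, f2, f3, f4, f5⟩ := e1 s hs0
  have hr := rep_of h hlam hrep hK0 hK hδ hε hη hη' hν hs0 hl
  exact ⟨f1, f2, fun a ha ha' => ⟨(e2 s hs0 a ha ha').1, f4, f5, (e2 s hs0 a ha ha').2, hr⟩, f3,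
    fun a ha ha' => ⟨(e3 s hs0 a ha ha').1, f4, f5, (e3 s hs0 a ha ha').2, hr⟩⟩

end final

end Hyp

theorem exists_hyp (P : Prof) (cut : Cut) (K : ℕ → ℝ) (c0 : ℝ)
    (h : ∀ nu, 0 < nu → nu ≤ 1 → (mkBg P cut nu).Pre K c0 P.U P.C) :
    ∃ nu, 0 < nu ∧ nu ≤ 1 ∧ (mkBg P cut nu).Hyp := by
  obtain ⟨Kr, hK0, hK⟩ := cut.abs_dX_rho2_le
  have k0 := (h 1 one_pos le_rfl).K_pos 0
  have k1 := (h 1 one_pos le_rfl).K_pos 1
  have hlam := P.lam_pos
  have hd := dr_pos
  have hH : 0 < Hyp.cF K := by unfold Hyp.cF; positivity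
  obtain ⟨δ, hδ, hε⟩ : ∃ δ : ℝ, 0 < δ ∧ 4 * Hyp.cF K * δ ^ (P.r - 1) ≤ 1 := by
    refine ⟨(4 * Hyp.cF K)⁻¹ ^ (P.r - 1)⁻¹, by positivity, le_of_eq ?_⟩
    rw [Real.rpow_inv_rpow (by positivity) (by linarith [P.r_gt]), mul_inv_cancel₀ (by positivity)]
  obtain ⟨nu, n0, n1, n2, n3, n4⟩ : ∃ nu : ℝ, 0 < nu ∧ nu ≤ 1 ∧ 7 * dd * K 0 * Kr * nu ≤ 1 / 4 ∧
      7 * dd * K 0 * Kr * nu ≤ P.lam / 4 ∧ nu ≤ P.lam / 4 * δ := by
    have t : 0 < 7 * dd * K 0 * Kr := by positivity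
    refine ⟨min (min 1 (P.lam / 4 * δ)) (min (1 / 4) (P.lam / 4) / (7 * dd * K 0 * Kr)),
      by positivity, (min_le_left _ _).trans (min_le_left _ _), ?_, ?_,
      (min_le_left _ _).trans (min_le_right _ _)⟩
    · exact ((le_div_iff₀' t).1 (min_le_right _ _)).trans (min_le_left _ _)
    · exact ((le_div_iff₀' t).1 (min_le_right _ _)).trans (min_le_right _ _)
  exact ⟨nu, n0, n1, Hyp.hyp_of (h nu n0 n1) hlam P.rep hK0 hK hδ hε n2 n3 n4⟩

end Pool.Agent.BoltzM
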