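import Pool.Agent.BoltzM.Bg.Main

/-! Symbol bounds of the coefficients of the transport operator and of the weights. -/

set_option autoImplicit false

open Pool.Agent.BoltzM.BoltzC Finset Filter

namespace Pool.Agent.BoltzM

variable [Dim]

theorem Sy.ev_slow {T : Type*} {p : T → Prop} {σ a : T → E3 → ℝ} (h : Sy (fun t _ => p t) σ a a)
    (pa : ∀ t, Per (a t)) (hpos : ∀ t x, 0 < a t x) :
    ∀ᶠ K : ℕ → ℝ in atTop, ∀ t, p t → Slow (K 1) (σ t) (a t) := by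
  obtain ⟨K, -, hK⟩ := h.slow pa hpos
  filter_upwards [eventually_ge_atTop fun _ : ℕ => K] with K' hK' t ht
  exact (hK t ht).mono_K (hK' 1)

namespace BgD.Pre

variable {B : BgD} {K : ℕ → ℝ} {c0 : ℝ} {U : Ix → E3 → ℝ} {C : E3 → ℝ} (h : B.Pre K c0 U C)
include h

omit h in
theorem mpos (s : ℝ) (x : E3) : 0 < B.Lam s x ^ (1 - B.r) := Real.rpow_pos_of_pos (B.Lam_pos s x) _

theorem sy_u (i : Ix) : Sy Pos B.Lam (fun s x => B.Lam s x ^ (1 - B.r)) (B.u i) :=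
  Sy.of_symBd (p := fun s : ℝ => 0 ≤ s) (CD.slice (h.cd_u i)) (fun s x _ => B.Lam_pos s x)
    (fun s x _ => (mpos s x).le) fun s hs => (h.sym s hs).1 i

theorem sy_C : Sy Pos B.Lam (fun s x => B.Lam s x ^ (1 - B.r)) B.C :=
  Sy.of_symBd (p := fun s : ℝ => 0 ≤ s) (CD.slice h.cd_C) (fun s x _ => B.Lam_pos s x)
    (fun s x _ => (mpos s x).le) fun s hs => (h.sym s hs).2.1

theorem sy_u' (i : Ix) :
    Sy Pos B.Lam (fun s x => B.mu s x * B.Lam s x ^ (1 - B.r)) (dS (B.u i)) :=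
  Sy.of_symBd (p := fun s : ℝ => 0 ≤ s) (CD.dS (h.cd_u i)).slice (fun s x _ => B.Lam_pos s x)
    (fun s x _ => (mul_pos (B.mu_pos s x) (mpos s x)).le) fun s hs => (h.sym s hs).2.2.1 i

theorem sy_C' : Sy Pos B.Lam (fun s x => B.mu s x * B.Lam s x ^ (1 - B.r)) (dS B.C) :=
  Sy.of_symBd (p := fun s : ℝ => 0 ≤ s) (CD.dS h.cd_C).slice (fun s x _ => B.Lam_pos s x)
    (fun s x _ => (mul_pos (B.mu_pos s x) (mpos s x)).le) fun s hs => (h.sym s hs).2.2.2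

theorem sy_ph : Sy Pos B.Lam B.ph B.ph := by
  have h1 : Sy Pos B.Lam B.mu fun s x => B.ph s x - 1 :=
    Sy.of_symBd (p := fun s : ℝ => 0 ≤ s) (B.cd_ph.sub (CD.const 1)).slice
      (fun s x _ => B.Lam_pos s x) (fun s x _ => (B.mu_pos s x).le) fun s hs => (h.symF s hs).1
  exact (((h1.mono_le fun s x _ => B.mu_le_one (by linarith [h.r_gt]) s x).add
    (Sy.const_one h1.pos 1)).mono_le fun s x _ => B.one_le_ph s x).congr fun s x => by ring

theorem sy_sig : Sy Pos B.Lam B.sig B.sig := (B.sy_sig0 h.nu_pos.le h.nu_le).mul h.sy_ph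

theorem sy_k1 : Sy Pos B.Lam B.k1 B.k1 :=
  ((h.sy_C.self h.c0_pos fun s x hs => h.C_ge s hs x).rpow_self h.C_pos _).tmul (fun s => Real.exp (-B.r * s))
    fun _ => (Real.exp_pos _).le

theorem to_sig {T : Type*} {P : T → E3 → Prop} {f : T → ℝ} {m a : T → E3 → ℝ}
    (ha : Sy P (fun t => B.Lam (f t)) m a) : Sy P (fun t => B.sig (f t)) m a := by
  obtain ⟨c, hc, hs⟩ := B.sig_le h.nu_pos.le h.nu_le h.F_le
  exact ha.scale hc fun t x _ => ⟨B.sig_pos _ x, hs _ x⟩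

omit h in
theorem sy_e {a : ℝ → E3 → ℝ} (ha : Sy Pos B.Lam (fun s x => B.Lam s x ^ (1 - B.r)) a) :
    Sy Pos B.Lam (fun s x => B.mu s x * B.Lam s x) fun s x => Real.exp (-B.r * s) * a s x :=
  (ha.tmul _ fun _ => (Real.exp_pos _).le).congr_m fun s x _ => B.mu_Lam s x

theorem bd_ev : ∀ᶠ K' : ℕ → ℝ in atTop, ∀ s, 0 ≤ s →
    (B.fld s).Bd K' (B.sig s) (B.mu s) ∧ SymBd K' 0 (B.sig s) (B.k1 s) (B.k1 s) ∧
      SymBd K' 0 (B.sig s) (B.mu s) (B.mu s) ∧ Slow (K' 1) (B.sig s) (B.sig s) ∧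
      Slow (K' 1) (B.sig s) (B.mu s) := by
  have hΛ := B.Lam_pos
  have hμ := B.mu_pos
  have ev : ∀ {m a : ℝ → E3 → ℝ}, Sy Pos B.Lam m a →
      ∀ᶠ K' : ℕ → ℝ in atTop, ∀ s, 0 ≤ s → SymBd K' 0 (B.sig s) (m s) (a s) := fun ha =>
    (h.to_sig (f := id) ha).ev (p := fun s : ℝ => 0 ≤ s)
  have hF : ∀ {a : ℝ → E3 → ℝ}, Sy Pos B.Lam (fun s x => B.Lam s x ^ (1 - B.r)) a →
      Sy Pos B.Lam (fun s x => B.mu s x * B.sig s x) fun s x => Real.exp (-B.r * s) * a s x := by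
    refine fun ha => (sy_e ha).mono (inv_pos.2 h.nu_pos) fun s x _ => ?_
    rw [le_inv_mul_iff₀ h.nu_pos, mul_left_comm]
    exact mul_le_mul_of_nonneg_left (B.nu_Lam_le_sig h.nu_pos.le h.nu_le s x) (hμ s x).le
  have hD : ∀ {a : ℝ → E3 → ℝ}, Sy Pos B.Lam (fun s x => B.Lam s x ^ (1 - B.r)) a → ∀ i,
      Sy Pos B.Lam B.mu fun s x => -(Real.exp (-B.r * s) * dX i (a s) x) := by
    refine fun ha i => ((ha.dX i).tmul _ fun _ => (Real.exp_pos _).le).neg.congr_m fun s x _ => ?_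
    rw [← mul_div_assoc, B.mu_Lam, mul_div_assoc, div_self (hΛ s x).ne', mul_one]
  have hM : ∀ {a : ℝ → E3 → ℝ}, Sy Pos B.Lam (fun s x => B.Lam s x ^ (1 - B.r)) a →
      Sy Pos B.Lam (fun s x => B.mu s x * B.Lam s x ^ (1 - B.r)) (dS a) →
      Sy Pos B.Lam B.mu fun s x => -B.mat a s x / B.C s x := by
    intro a ha ha'
    have a1 : Sy Pos B.Lam (fun s x => B.mu s x * B.Lam s x ^ (1 - B.r)) (B.mat a) :=
      ha'.add (Sy.sum fun i => ((sy_e (h.sy_u i)).mul (ha.dX i)).congr_m fun s x _ => by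
        have := (hΛ s x).ne'
        field_simp)
    refine (a1.neg.div h.sy_C h.C_pos h.c0_pos fun s x hs => h.C_ge s hs x).congr_m
      fun s x _ => ?_
    rw [mul_div_assoc, div_self (mpos s x).ne', mul_one]
  have hb1 : ∀ i j, Sy Pos B.Lam B.mu fun s => (B.fld s).b1 i j := by
    intro i j
    by_cases e : i = j
    · refine ((hD (h.sy_u j) i).add (hM h.sy_C h.sy_C')).congr fun s x => ?_
      simp only [BgD.fld, if_pos e]
      ring
    · refine (hD (h.sy_u j) i).congr fun s x => ?_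
      simp only [BgD.fld, if_neg e, sub_zero]
  filter_upwards [eventually_all.2 fun i => ev (hF (h.sy_u i)), ev (hF h.sy_C),
    eventually_all.2 fun j => ev (hM (h.sy_u j) (h.sy_u' j)),
    eventually_all.2 fun i => eventually_all.2 fun j => ev (hb1 i j),
    eventually_all.2 fun i => ev (hD h.sy_C i), ev h.sy_k1, ev B.sy_mu,
    (h.to_sig (f := id) h.sy_sig).ev_slow (p := fun s : ℝ => 0 ≤ s) B.per_sig B.sig_pos,
    (h.to_sig (f := id) B.sy_mu).ev_slow (p := fun s : ℝ => 0 ≤ s) B.per_mu hμ]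
    with K' e1 e2 e3 e4 e5 e6 e7 e8 e9 s hs
  exact ⟨⟨fun i => (e1 i s hs).mono_n (Nat.zero_le 2), e2 s hs, fun j => e3 j s hs,
    fun i j => e4 i j s hs, fun i => e5 i s hs⟩, e6 s hs, e7 s hs, e8 s hs, e9 s hs⟩

/-- A family of weights, uniformly in `a ∈ [0, eta]`. -/
theorem wt_ev {ω ωt : ℝ → ℝ → E3 → ℝ} {M : ℝ}
    (hs : Sy (fun (q : ℝ × ℝ) _ => (0 ≤ q.1 ∧ q.1 ≤ B.eta) ∧ 0 ≤ q.2) (fun q => B.Lam q.2)
      (fun q => ω q.1 q.2) fun q => ω q.1 q.2) (hp : ∀ a s, Per (ω a s))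
    (h0 : ∀ a s x, 0 < ω a s x) (ht : ∀ a s x, 0 ≤ a → a ≤ B.eta → 0 ≤ s →
      ωt a s x + 2 * a * ω a s x ≤ M * B.mu s x * ω a s x) :
    ∀ᶠ K' : ℕ → ℝ in atTop, ∀ s, 0 ≤ s → ∀ a, 0 ≤ a → a ≤ B.eta →
      Slow (K' 1) (B.sig s) (ω a s) ∧ ∀ x, ωt a s x + ∑ i, dX i (fun y => (B.fld s).u i y * ω a s y) x
        + 2 * a * ω a s x ≤ K' 0 * B.mu s x * ω a s x := by
  obtain ⟨N, -, hN⟩ := (Sy.sum fun i => ((((sy_e (h.sy_u i)).reparam (Prod.snd : ℝ × ℝ → ℝ)).restrict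
    fun _ _ hq => hq.2).mul hs).dX i).abs_le
  filter_upwards [(h.to_sig hs).ev_slow (fun q => hp q.1 q.2) fun q => h0 q.1 q.2,
    eventually_ge_atTop fun _ : ℕ => M + N] with K' e1 e2 s hs a ha ha'
  refine ⟨e1 (a, s) ⟨⟨ha, ha'⟩, hs⟩, fun x => ?_⟩
  have a1 := (le_abs_self _).trans (hN (a, s) x ⟨⟨ha, ha'⟩, hs⟩)
  have a2 := mul_le_mul_of_nonneg_right (e2 0) (mul_pos (B.mu_pos s x) (h0 a s x)).le
  have e : B.mu s x * B.Lam s x * ω a s x / B.Lam s x = B.mu s x * ω a s x := by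
    have := (B.Lam_pos s x).ne'
    field_simp
  simp only [e] at a1
  have a3 : ∑ i, dX i (fun y => (B.fld s).u i y * ω a s y) x ≤ N * (B.mu s x * ω a s x) := a1
  linarith [ht a s x ha ha' hs]

theorem dS_om_le {a : ℝ} (s : ℝ) (x : E3) (ha : 0 ≤ a) (ha' : a ≤ B.eta) :
    dS (B.om a) s x + 2 * a * B.om a s x ≤ (dd + 2 * B.eta) * B.mu s x * B.om a s x := by
  have hd := dr_pos
  have a1 := mul_le_mul (by linarith : dd + 2 * a ≤ dd + 2 * B.eta)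
    (B.ratio_le_mu (by linarith [h.r_lt]) s x) (by positivity) (by linarith)
  have a2 := mul_le_mul_of_nonneg_right a1 (B.om_pos a s x).le
  rw [B.dS_om]
  linarith

theorem k1_pos (s : ℝ) (x : E3) : 0 < B.k1 s x :=
  mul_pos (Real.exp_pos _) (Real.rpow_pos_of_pos (h.C_pos s x) _)

theorem omH_pos (a s : ℝ) (x : E3) : 0 < B.omH a s x :=
  mul_pos (B.om_pos a s x) (div_pos (h.k1_pos s x) (B.mu_pos s x))

theorem dS_omH (a s : ℝ) (x : E3) : dS (B.omH a) s x = dS (B.om a) s x * (B.k1 s x / B.mu s x) +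
    ((dd + 199 / 100) * (dS B.C s x / B.C s x) - B.r * (Real.exp (-2 * s) / B.Lam s x ^ 2)) *
      B.omH a s x := by
  have h1 := (hasDerivAt_exp_mul (-B.r) s).mul ((CD.hasDerivAt h.cd_C s x).rpow_const
    (p := (dd : ℝ) + 199 / 100) (Or.inl (h.C_pos s x).ne'))
  have h2 := ((B.cd_om a).hasDerivAt s x).mul
    (h1.div (B.cd_mu.hasDerivAt s x) (B.mu_pos s x).ne')
  refine (dS_eq (a := B.omH a) h2).trans ?_
  have a1 := (B.mu_pos s x).ne'
  have a2 := (h.C_pos s x).ne'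
  simp only [Pi.mul_apply, Pi.div_apply, B.dS_mu, omH, k1, Real.rpow_sub_one a2]
  field_simp
  ring

theorem dS_omH_le {a s : ℝ} (x : E3) (ha : 0 ≤ a) (ha' : a ≤ B.eta) (hs : 0 ≤ s) :
    dS (B.omH a) s x + 2 * a * B.omH a s x ≤
      (dd + 2 * B.eta + (dd + 199 / 100) * (K 0 / c0)) * B.mu s x * B.omH a s x := by
  have hd := dr_pos
  have hc := h.c0_pos
  have hr := h.r_gt
  have a0 := h.omH_pos a s x
  have a1 := mul_le_mul_of_nonneg_right (h.dS_om_le s x ha ha')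
    (div_pos (h.k1_pos s x) (B.mu_pos s x)).le
  have a2 : dS B.C s x / B.C s x ≤ K 0 / c0 * B.mu s x := by
    have b1 := (h.sym s hs).2.2.2 [] le_rfl x
    simp only [List.length_nil, pow_zero, one_mul, dXw_nil] at b1
    have b2 := mul_le_mul_of_nonneg_left (h.C_ge s hs x)
      (mul_pos (div_pos (h.K_pos 0) hc) (B.mu_pos s x)).le
    have b3 : K 0 / c0 * B.mu s x * (c0 * B.Lam s x ^ (1 - B.r)) =
        K 0 * (B.mu s x * B.Lam s x ^ (1 - B.r)) := by field_simp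
    rw [div_le_iff₀ (h.C_pos s x)]
    linarith [le_abs_self (dS B.C s x)]
  have a3 := mul_le_mul_of_nonneg_right a2 (by positivity : 0 ≤ (dd + 199 / 100) * B.omH a s x)
  have a4 : 0 ≤ B.r * (Real.exp (-2 * s) / B.Lam s x ^ 2) * B.omH a s x := by positivity
  have e : B.omH a s x = B.om a s x * (B.k1 s x / B.mu s x) := rfl
  rw [h.dS_omH]
  rw [add_mul, mul_assoc _ (B.om a s x), mul_assoc _ (B.om a s x), ← e] at a1
  linarith

theorem sy_omH : Sy (fun (q : ℝ × ℝ) _ => (0 ≤ q.1 ∧ q.1 ≤ B.eta) ∧ 0 ≤ q.2) (fun q => B.Lam q.2)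
    (fun q => B.omH q.1 q.2) fun q => B.omH q.1 q.2 :=
  B.sy_om_unif.mul (((h.sy_k1.div B.sy_mu B.mu_pos one_pos fun _ _ _ => (one_mul _).le).reparam
    (Prod.snd : ℝ × ℝ → ℝ)).restrict fun _ _ hq => hq.2)

end BgD.Pre

end Pool.Agent.BoltzM
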