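import Pool.Agent.BoltzM.Bg.WtSym
import Pool.Agent.BoltzM.Bg.CutEx

/-! MC1a: the explicit background satisfies everything in `BgD.Ok` except `hyp`. -/

set_option autoImplicit false

open Pool.Agent.BoltzM.BoltzC Finset Filter Topology
open scoped ContDiff

noncomputable section

namespace Pool.Agent.BoltzM

variable [Dim]

theorem SymBd.scale {K : ℕ → ℝ} {n0 : ℕ} {s τ m a : E3 → ℝ} {c : ℝ} (h : SymBd K n0 s m a)
    (hc : 0 ≤ c) (h0 : ∀ x, 0 ≤ τ x) (h1 : ∀ x, τ x ≤ c * s x) :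
    SymBd (fun n => c ^ n * K n) n0 τ m a := by
  intro w hw x
  have h2 : τ x ^ w.length ≤ c ^ w.length * s x ^ w.length := by
    rw [← mul_pow]
    exact pow_le_pow_left₀ (h0 x) (h1 x) _
  calc τ x ^ w.length * |dXw w a x| ≤ c ^ w.length * s x ^ w.length * |dXw w a x| :=
        mul_le_mul_of_nonneg_right h2 (abs_nonneg _)
    _ = c ^ w.length * (s x ^ w.length * |dXw w a x|) := by ring
    _ ≤ c ^ w.length * (K w.length * m x) := mul_le_mul_of_nonneg_left (h w hw x) (by positivity)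
    _ = _ := by ring

namespace BgD

variable {B : BgD}

theorem cd_mat (hu : ∀ i, CD (B.u i)) {a : ℝ → E3 → ℝ} (ha : CD a) : CD (B.mat a) :=
  ha.dS.add (CD.sum univ fun i _ => ((CD.exp_mul (-B.r)).mul (hu i)).mul (ha.dX i))

theorem per_mat (pu : ∀ i s, Per (B.u i s)) {a : ℝ → E3 → ℝ} (pa : ∀ s, Per (a s)) (s : ℝ) :
    Per (B.mat a s) := fun j x => by
  simp only [mat, per_dS pa s j x, pu _ s j x, (pa s).dX _ j x]

theorem cd_k1 (hC : CD B.C) (h0 : ∀ s x, 0 < B.C s x) : CD B.k1 :=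
  (CD.exp_mul (-B.r)).mul (hC.rpow (fun s x => (h0 s x).ne') _)

theorem per_k1 (pC : ∀ s, Per (B.C s)) (s : ℝ) : Per (B.k1 s) := fun j x => by
  simp only [k1, pC s j x]

theorem cd_omH (hC : CD B.C) (h0 : ∀ s x, 0 < B.C s x) (a : ℝ) : CD (B.omH a) :=
  (B.cd_om a).mul ((cd_k1 hC h0).div B.cd_mu fun s x => (B.mu_pos s x).ne')

theorem per_omH (pC : ∀ s, Per (B.C s)) (a s : ℝ) : Per (B.omH a s) := fun j x => by
  simp only [omH, per_k1 pC s j x, B.per_om a s j x, B.per_mu s j x]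

theorem ph_eq (B : BgD) (s : ℝ) (x : E3) : B.ph s x = 1 + B.cut.resc 0 B.F s x := by
  simp [ph, Cut.resc]

theorem dS_ph (B : BgD) (s : ℝ) (x : E3) :
    dS B.ph s x = B.cut.resc 0 (fun y => ∑ i, y i * dX i B.F y) s x := by
  have h1 := ((B.cut.cd_resc 0 B.cd_F).hasDerivAt s x).const_add 1
  simp only [← ph_eq] at h1
  rw [dS_eq h1, B.cut.dS_resc 0 B.cd_F]
  simp only [zero_mul, zero_add]

theorem sy_resc_mu (B : BgD) {Φ : E3 → ℝ} (h : PS (-B.r) Φ) :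
    Sy Pos B.Lam B.mu (B.cut.resc 0 Φ) :=
  (B.sy_resc 0 h).congr_m fun s x _ => by rw [zero_add]; rfl

theorem sy_ph (B : BgD) (h : PS (-B.r) B.F) : Sy Pos B.Lam B.mu fun s x => B.ph s x - 1 :=
  (B.sy_resc_mu h).congr fun s x => by rw [ph_eq]; ring

theorem sy_dS_ph (B : BgD) (h : PS (-B.r) B.F) : Sy Pos B.Lam B.mu (dS B.ph) :=
  (B.sy_resc_mu (PS.sum fun i => ((PS.coord i).mul (h.dX i)).congr_ord (by ring))).congr
    fun s x => (B.dS_ph s x).symm

theorem cd_fld_u (hu : ∀ i, CD (B.u i)) (i : Ix) : CD fun s => (B.fld s).u i :=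
  (CD.exp_mul (-B.r)).mul (hu i)

theorem cd_fld_c (hC : CD B.C) : CD fun s => (B.fld s).c := (CD.exp_mul (-B.r)).mul hC

theorem cd_fld_b0 (hu : ∀ i, CD (B.u i)) (hC : CD B.C) (h0 : ∀ s x, 0 < B.C s x) (j : Ix) :
    CD fun s => (B.fld s).b0 j := (cd_mat hu (hu j)).neg.div hC fun s x => (h0 s x).ne'

theorem cd_fld_b1 (hu : ∀ i, CD (B.u i)) (hC : CD B.C) (h0 : ∀ s x, 0 < B.C s x) (i j : Ix) :
    CD fun s => (B.fld s).b1 i j := by
  have h1 : CD fun s x => if i = j then B.mat B.C s x / B.C s x else 0 := by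
    split_ifs
    · exact (cd_mat hu hC).div hC fun s x => (h0 s x).ne'
    · exact CD.const 0
  exact ((CD.exp_mul (-B.r)).mul ((hu j).dX i)).neg.sub h1

theorem cd_fld_b2 (hC : CD B.C) (i : Ix) : CD fun s => (B.fld s).b2 i :=
  ((CD.exp_mul (-B.r)).mul (hC.dX i)).neg

theorem fldC_of (hu : ∀ i, CD (B.u i)) (hC : CD B.C) (pu : ∀ i s, Per (B.u i s))
    (pC : ∀ s, Per (B.C s)) (h0 : ∀ s x, 0 < B.C s x) : FldC B.fld := by
  refine ⟨fun i => (cd_fld_u hu i).smC, (cd_fld_c hC).smC, fun j => (cd_fld_b0 hu hC h0 j).smC,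
    fun i j => (cd_fld_b1 hu hC h0 i j).smC, fun i => (cd_fld_b2 hC i).smC, fun s =>
    ⟨fun i => ⟨(cd_fld_u hu i).sm s, fun k x => ?_⟩, ⟨(cd_fld_c hC).sm s, fun k x => ?_⟩,
      fun j => ⟨(cd_fld_b0 hu hC h0 j).sm s, fun k x => ?_⟩,
      fun i j => ⟨(cd_fld_b1 hu hC h0 i j).sm s, fun k x => ?_⟩,
      fun i => ⟨(cd_fld_b2 hC i).sm s, fun k x => ?_⟩⟩⟩
  · simp only [fld, pu i s k x]
  · simp only [fld, pC s k x]
  · simp only [fld, per_mat pu (pu j) s k x, pC s k x]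
  · simp only [fld, per_mat pu pC s k x, pC s k x, (pu j s).dX i k x]
  · simp only [fld, (pC s).dX i k x]

theorem Pre.ok {K : ℕ → ℝ} {c0 : ℝ} {U : Ix → E3 → ℝ} {C : E3 → ℝ} (h : B.Pre K c0 U C)
    (hyp : B.Hyp) : B.Ok := by
  have hu : ∀ i, CD (B.u i) := h.cd_u
  have hC : CD B.C := h.cd_C
  obtain ⟨c, hc, hs⟩ := B.sig_le h.nu_pos.le h.nu_le h.F_le
  have sc : ∀ {s : ℝ} {m a : E3 → ℝ}, SymBd K 0 (B.Lam s) m a →
      SymBd (fun n => c ^ n * K n) 0 (B.sig s) m a := fun {s _ _} ha =>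
    ha.scale hc.le (fun x => (B.sig_pos s x).le) (hs s)
  exact ⟨h.r_gt, h.kap_gt, h.r_lt, h.nu_pos, h.nu_le, h.cd_u, h.cd_C, h.per_u, h.per_C, h.C_pos,
    fun i => (hu i).smD, hC.smD, h.F_le, fun a => (B.cd_om a).smD,
    fun a => (cd_omH hC h.C_pos a).smD, B.cd_sig.smD, B.cd_mu.smC, (cd_k1 hC h.C_pos).smC,
    fldC_of hu hC h.per_u h.per_C h.C_pos, ⟨c0, h.c0_pos, h.C_ge⟩,
    ⟨fun n => c ^ n * K n, fun s hs => ⟨fun i => sc ((h.sym s hs).1 i), sc (h.sym s hs).2.1,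
      fun i => sc ((h.sym s hs).2.2.1 i), sc (h.sym s hs).2.2.2⟩⟩,
    hyp, h.euler_u, h.euler_C, ⟨U, C, h.cd_U', h.cd_C', h.scal⟩⟩

end BgD

theorem Cut.dX_resc (cut : Cut) (c : ℝ) {Φ : E3 → ℝ} (h : ContDiff ℝ ∞ Φ) (s : ℝ) {x : E3}
    (hx : ∀ i, |x i| < 1 / 8) (i : Ix) :
    dX i (cut.resc c Φ s) x = Real.exp (c * s) * (Real.exp s * dX i Φ (Real.exp s • x)) := by
  have e : cut.resc c Φ s =ᶠ[𝓝 x] fun y => Real.exp (c * s) • Φ (Real.exp s • y) :=
    (eventually_box hx).mono fun y hy => cut.resc_eq c Φ s hy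
  rw [dX_congr_at e, congrFun (dX_const_smul (sm_comp_smul (sm_of_cd h) _).dif _ i) x,
    congrFun (dX_comp_smul (cd_dif h) (Real.exp s) i) x, smul_eq_mul, smul_eq_mul]

namespace Prof

variable (P : Prof)

/-- The quadratic terms of the velocity equation. -/
def PsiU (j : Ix) (y : E3) : ℝ :=
  ∑ i, P.U i y * dX i (P.U j) y + (dd + 2) * (P.C y * dX j P.C y)

/-- The quadratic terms of the equation for the thermal speed. -/
def PsiC (y : E3) : ℝ :=
  ∑ i, P.U i y * dX i P.C y + (dd : ℝ)⁻¹ * (P.C y * ∑ i, dX i (P.U i) y)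

theorem ps_PsiU (j : Ix) : PS (1 - P.r + (1 - P.r - 1)) (P.PsiU j) :=
  (PS.sum fun i => (P.ps_U i).mul ((P.ps_U j).dX i)).add
    ((P.ps_C.mul (P.ps_C.dX j)).cmul (dd + 2))

theorem ps_PsiC : PS (1 - P.r + (1 - P.r - 1)) P.PsiC :=
  (PS.sum fun i => (P.ps_U i).mul (P.ps_C.dX i)).add
    ((P.ps_C.mul (PS.sum fun i => (P.ps_U i).dX i)).cmul (dd : ℝ)⁻¹)

theorem C_pos (y : E3) : 0 < P.C y :=
  lt_of_lt_of_le (mul_pos P.c0_pos (Real.rpow_pos_of_pos (by positivity) _)) (P.low y)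

theorem F_le : ∃ S : ℝ, ∀ y, P.F y ≤ S := by
  obtain ⟨K, hK, H⟩ := Sy.abs_le P.ps_F
  refine ⟨K, fun y => (le_abs_self _).trans ((H () y trivial).trans ?_)⟩
  exact mul_le_of_le_one_right hK.le
    (Real.rpow_le_one_of_one_le_of_nonpos (one_le_jb y) (by linarith [P.r_gt]))

variable (cut : Cut) (nu : ℝ)

theorem cd_u (i : Ix) : CD ((mkBg P cut nu).u i) := cut.cd_resc _ (P.cd_U i)

theorem cd_CC : CD (mkBg P cut nu).C :=
  (cut.cd_resc _ P.cd_C).add ((CD.const 1).sub (CD.of_space cut.cd_chi))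

theorem dS_u (j : Ix) (s : ℝ) (x : E3) :
    dS ((mkBg P cut nu).u j) s x = -cut.resc (P.r - 1) (P.PsiU j) s x := by
  refine (cut.dS_resc _ (P.cd_U j) s x).trans ?_
  have h := P.eqU (Real.exp s • cut.pi x) j
  simp only [add_mul, sum_add_distrib] at h
  simp only [Cut.resc, PsiU]
  rw [← mul_neg, ← mul_neg]
  congr 2
  linarith

theorem dS_CC (s : ℝ) (x : E3) :
    dS (mkBg P cut nu).C s x = -cut.resc (P.r - 1) P.PsiC s x := by
  have h1 := ((cut.cd_resc (P.r - 1) P.cd_C).hasDerivAt s x).add_const (1 - cut.chi x)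
  refine (dS_eq (a := (mkBg P cut nu).C) h1).trans ((cut.dS_resc _ P.cd_C s x).trans ?_)
  have h := P.eqC (Real.exp s • cut.pi x)
  simp only [add_mul, sum_add_distrib] at h
  simp only [Cut.resc, PsiC]
  rw [← mul_neg, ← mul_neg]
  congr 2
  linarith

theorem CC_eq (s : ℝ) {x : E3} (h : box (1 / 8) x) :
    (mkBg P cut nu).C s x = Real.exp ((P.r - 1) * s) * P.C (Real.exp s • x) := by
  simp only [mkBg, cut.resc_eq _ _ s h, cut.chi_one x h, sub_self, add_zero]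

theorem dX_CC (s : ℝ) {x : E3} (hx : ∀ i, |x i| < 1 / 8) (i : Ix) :
    dX i ((mkBg P cut nu).C s) x =
      Real.exp ((P.r - 1) * s) * (Real.exp s * dX i P.C (Real.exp s • x)) := by
  have e : (mkBg P cut nu).C s =ᶠ[𝓝 x] cut.resc (P.r - 1) P.C s :=
    (eventually_box hx).mono fun y hy => by rw [P.CC_eq cut nu s hy, cut.resc_eq _ _ s hy]
  rw [dX_congr_at e, cut.dX_resc _ P.cd_C s hx]

theorem CC_pos (s : ℝ) (x : E3) : 0 < (mkBg P cut nu).C s x := by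
  have h1 := mul_pos (Real.exp_pos ((P.r - 1) * s)) (P.C_pos (Real.exp s • cut.pi x))
  have h2 := cut.chi_nonneg x
  have h3 := cut.chi_le x
  simp only [mkBg, Cut.resc]
  rcases h2.lt_or_eq with h2 | h2
  · have := mul_pos h2 h1
    linarith
  · rw [← h2]; simp

theorem sy_resc_prof {Φ : E3 → ℝ} (h : PS (1 - P.r) Φ) :
    Sy Pos (mkBg P cut nu).Lam (fun s x => (mkBg P cut nu).Lam s x ^ (1 - P.r))
      (cut.resc (P.r - 1) Φ) :=
  ((mkBg P cut nu).sy_resc (P.r - 1) h).congr_m fun s x _ => by simp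

theorem sy_resc_quad {Φ : E3 → ℝ} (h : PS (1 - P.r + (1 - P.r - 1)) Φ) :
    Sy Pos (mkBg P cut nu).Lam
      (fun s x => (mkBg P cut nu).mu s x * (mkBg P cut nu).Lam s x ^ (1 - P.r))
      (cut.resc (P.r - 1) Φ) :=
  ((mkBg P cut nu).sy_resc (P.r - 1) h).congr_m fun s x _ => by
    have e1 : P.r - 1 + (1 - P.r + (1 - P.r - 1)) = -P.r := by ring
    have e2 : 1 - P.r + (1 - P.r - 1) = -P.r + (1 - P.r) := by ring
    rw [e1, e2, Real.rpow_add ((mkBg P cut nu).Lam_pos s x), ← mul_assoc]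
    rfl

theorem sy_u (i : Ix) : Sy Pos (mkBg P cut nu).Lam
    (fun s x => (mkBg P cut nu).Lam s x ^ (1 - P.r)) ((mkBg P cut nu).u i) :=
  P.sy_resc_prof cut nu (P.ps_U i)

theorem sy_CC : Sy Pos (mkBg P cut nu).Lam
    (fun s x => (mkBg P cut nu).Lam s x ^ (1 - P.r)) (mkBg P cut nu).C := by
  have h1 := ((Sy.const_one (fun s x _ => (mkBg P cut nu).Lam_pos s x) 1).sub
    (mkBg P cut nu).sy_chi).mono (c := (dd + 1 : ℝ) ^ (-(1 - P.r))) (by positivity)
    fun s x hs => (mkBg P cut nu).one_le_Lam_rpow (by linarith [P.r_gt]) hs x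
  exact (P.sy_resc_prof cut nu P.ps_C).add h1

theorem sy_dS_u (i : Ix) : Sy Pos (mkBg P cut nu).Lam
    (fun s x => (mkBg P cut nu).mu s x * (mkBg P cut nu).Lam s x ^ (1 - P.r))
    (dS ((mkBg P cut nu).u i)) :=
  (P.sy_resc_quad cut nu (P.ps_PsiU i)).neg.congr fun s x => (P.dS_u cut nu i s x).symm

theorem sy_dS_CC : Sy Pos (mkBg P cut nu).Lam
    (fun s x => (mkBg P cut nu).mu s x * (mkBg P cut nu).Lam s x ^ (1 - P.r))
    (dS (mkBg P cut nu).C) :=
  (P.sy_resc_quad cut nu P.ps_PsiC).neg.congr fun s x => (P.dS_CC cut nu s x).symm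

theorem per_CC (s : ℝ) : Per ((mkBg P cut nu).C s) := fun i x => by
  simp only [mkBg, cut.per_resc _ _ s i x, cut.per_chi i x]

theorem CC_ge (s : ℝ) (x : E3) :
    min P.c0 ((1 / 32) ^ (P.r - 1)) * (mkBg P cut nu).Lam s x ^ (1 - P.r) ≤
      (mkBg P cut nu).C s x := by
  set B := mkBg P cut nu with hB
  set c := min P.c0 ((1 / 32) ^ (P.r - 1)) with hc
  refine per_red (p := fun x => c * B.Lam s x ^ (1 - P.r) ≤ B.C s x) (fun i y => ?_)
    (fun y hy => ?_) x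
  · have e : B.C s (y + ev i) = B.C s y := P.per_CC cut nu s i y
    simp only [B.per_Lam s i y, e]
  have hL := Real.rpow_pos_of_pos (B.Lam_pos s y) (1 - P.r)
  have h1 : cut.chi y * (c * B.Lam s y ^ (1 - P.r)) ≤ cut.resc (P.r - 1) P.C s y := by
    by_cases h0 : cut.chi y = 0
    · simp [Cut.resc, h0]
    have hb : box (1 / 4) y := (cut.box_of_chi_ne hy h0).mono (by norm_num)
    refine mul_le_mul_of_nonneg_left ?_ (cut.chi_nonneg y)
    have h2 := P.low (Real.exp s • y)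
    rw [← jb_rpow, ← B.exp_mul_Lam s hb, B.vp_rpow] at h2
    have h3 := mul_le_mul_of_nonneg_left h2 (Real.exp_pos ((P.r - 1) * s)).le
    have h4 : Real.exp ((P.r - 1) * s) * Real.exp ((1 - P.r) * s) = 1 := by
      rw [← Real.exp_add, Real.exp_eq_one_iff]; ring
    have h5 : c * B.Lam s y ^ (1 - P.r) ≤ P.c0 * B.Lam s y ^ (1 - P.r) :=
      mul_le_mul_of_nonneg_right (min_le_left _ _) hL.le
    rw [cut.pi_eq y hb]
    calc c * B.Lam s y ^ (1 - P.r) ≤ P.c0 * B.Lam s y ^ (1 - P.r) := h5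
      _ = Real.exp ((P.r - 1) * s) * (P.c0 * (Real.exp ((1 - P.r) * s) * B.Lam s y ^ (1 - P.r))) := by
          linear_combination (-(P.c0 * B.Lam s y ^ (1 - P.r))) * h4
      _ ≤ _ := h3
  have h2 : (1 - cut.chi y) * (c * B.Lam s y ^ (1 - P.r)) ≤ 1 - cut.chi y := by
    by_cases h8 : box (1 / 8) y
    · simp [cut.chi_one y h8]
    have h3 : (1 / 32 : ℝ) ≤ B.Lam s y := by
      linarith [B.Lam_ge_of_not_box s (by norm_num) hy h8]
    have h4 : B.Lam s y ^ (1 - P.r) ≤ (1 / 32 : ℝ) ^ (1 - P.r) :=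
      Real.rpow_le_rpow_of_nonpos (by norm_num) h3 (by linarith [P.r_gt])
    have h5 : (1 / 32 : ℝ) ^ (P.r - 1) * (1 / 32 : ℝ) ^ (1 - P.r) = 1 := by
      rw [← Real.rpow_add (by norm_num)]; simp
    have h6 : c * B.Lam s y ^ (1 - P.r) ≤ 1 :=
      (mul_le_mul (min_le_right _ _) h4 hL.le (by positivity)).trans h5.le
    exact mul_le_of_le_one_right (by linarith [cut.chi_le y]) h6
  have e : B.C s y = cut.resc (P.r - 1) P.C s y + (1 - cut.chi y) := rfl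
  rw [e]
  linarith

theorem exp_cancel (s : ℝ) : Real.exp (-P.r * s) * Real.exp ((P.r - 1) * s) * Real.exp s = 1 := by
  rw [← Real.exp_add, ← Real.exp_add, Real.exp_eq_one_iff]; ring

theorem euler_u (j : Ix) (s : ℝ) {x : E3} (h : box (1 / 10) x) :
    (mkBg P cut nu).mat ((mkBg P cut nu).u j) s x + (dd + 2) *
      (Real.exp (-P.r * s) * (mkBg P cut nu).C s x) * dX j ((mkBg P cut nu).C s) x = 0 := by
  have h8 : box (1 / 8) x := h.mono (by norm_num)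
  have hx : ∀ i, |x i| < 1 / 8 := fun i => (h i).trans_lt (by norm_num)
  have e : ∀ i, Real.exp (-(mkBg P cut nu).r * s) * (mkBg P cut nu).u i s x *
      dX i ((mkBg P cut nu).u j s) x = Real.exp ((P.r - 1) * s) *
        (P.U i (Real.exp s • x) * dX i (P.U j) (Real.exp s • x)) := fun i => by
    have e1 : (mkBg P cut nu).u i s x = _ := cut.resc_eq _ (P.U i) s h8
    have e2 : dX i ((mkBg P cut nu).u j s) x = _ := cut.dX_resc _ (P.cd_U j) s hx i
    rw [e1, e2, show (mkBg P cut nu).r = P.r from rfl]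
    linear_combination (Real.exp ((P.r - 1) * s) *
      (P.U i (Real.exp s • x) * dX i (P.U j) (Real.exp s • x))) * P.exp_cancel s
  rw [BgD.mat, P.dS_u, P.CC_eq cut nu s h8, P.dX_CC cut nu s hx, cut.resc_eq _ _ s h8, PsiU,
    sum_congr rfl fun i _ => e i, ← mul_sum]
  linear_combination (Real.exp ((P.r - 1) * s) *
    ((dd + 2) * (P.C (Real.exp s • x) * dX j P.C (Real.exp s • x)))) * P.exp_cancel s

theorem euler_C (s : ℝ) {x : E3} (h : box (1 / 10) x) :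
    (mkBg P cut nu).mat (mkBg P cut nu).C s x + (dd : ℝ)⁻¹ * (mkBg P cut nu).C s x *
      ∑ i, Real.exp (-P.r * s) * dX i ((mkBg P cut nu).u i s) x = 0 := by
  have h8 : box (1 / 8) x := h.mono (by norm_num)
  have hx : ∀ i, |x i| < 1 / 8 := fun i => (h i).trans_lt (by norm_num)
  have e : ∀ i, Real.exp (-(mkBg P cut nu).r * s) * (mkBg P cut nu).u i s x *
      dX i ((mkBg P cut nu).C s) x = Real.exp ((P.r - 1) * s) *
        (P.U i (Real.exp s • x) * dX i P.C (Real.exp s • x)) := fun i => by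
    have e1 : (mkBg P cut nu).u i s x = _ := cut.resc_eq _ (P.U i) s h8
    rw [e1, P.dX_CC cut nu s hx, show (mkBg P cut nu).r = P.r from rfl]
    linear_combination (Real.exp ((P.r - 1) * s) *
      (P.U i (Real.exp s • x) * dX i P.C (Real.exp s • x))) * P.exp_cancel s
  have e' : ∀ i, Real.exp (-P.r * s) * dX i ((mkBg P cut nu).u i s) x =
      dX i (P.U i) (Real.exp s • x) := fun i => by
    have e2 : dX i ((mkBg P cut nu).u i s) x = _ := cut.dX_resc _ (P.cd_U i) s hx i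
    rw [e2]
    linear_combination dX i (P.U i) (Real.exp s • x) * P.exp_cancel s
  rw [BgD.mat, P.dS_CC, P.CC_eq cut nu s h8, cut.resc_eq _ _ s h8, PsiC,
    sum_congr rfl fun i _ => e i, sum_congr rfl fun i _ => e' i, ← mul_sum]
  ring

end Prof

theorem Sy.ev {T : Type*} {p : T → Prop} {σ m a : T → E3 → ℝ} (h : Sy (fun t _ => p t) σ m a) :
    ∀ᶠ K : ℕ → ℝ in atTop, ∀ t, p t → SymBd K 0 (σ t) (m t) (a t) := by
  obtain ⟨K, -, hK⟩ := h.symBd
  filter_upwards [eventually_ge_atTop K] with K' hK' t ht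
  exact (hK t ht).mono_K hK' fun _ => h.nonneg ht

theorem preStmt : PreStmt := by
  intro P
  obtain ⟨cut⟩ := cut_exists
  obtain ⟨K, H0, H1, H2, H3, H4, H5, H6⟩ := ((eventually_ge_atTop fun _ : ℕ => (1 : ℝ)).and
    ((eventually_all.2 fun i => (P.sy_u cut 1 i).ev (p := fun s : ℝ => 0 ≤ s)).and
    (((P.sy_CC cut 1).ev (p := fun s : ℝ => 0 ≤ s)).and
    ((eventually_all.2 fun i => (P.sy_dS_u cut 1 i).ev (p := fun s : ℝ => 0 ≤ s)).and
    (((P.sy_dS_CC cut 1).ev (p := fun s : ℝ => 0 ≤ s)).and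
    ((((mkBg P cut 1).sy_ph P.ps_F).ev (p := fun s : ℝ => 0 ≤ s)).and
    (((mkBg P cut 1).sy_dS_ph P.ps_F).ev (p := fun s : ℝ => 0 ≤ s)))))))).exists
  exact ⟨cut, K, min P.c0 ((1 / 32) ^ (P.r - 1)), fun nu h0 h1 => ⟨P.r_gt, P.kap_gt, P.r_lt, h0, h1,
    P.cd_u cut nu, P.cd_CC cut nu, fun i s => cut.per_resc _ _ s, P.per_CC cut nu, P.CC_pos cut nu,
    fun n => one_pos.trans_le (H0 n), lt_min P.c0_pos (by positivity),
    fun s _ x => P.CC_ge cut nu s x,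
    fun s hs => ⟨fun i => H1 i s hs, H2 s hs, fun i => H3 i s hs, H4 s hs⟩, P.F_le,
    fun s hs => ⟨H5 s hs, H6 s hs⟩, fun j s x hx => P.euler_u cut nu j s hx,
    fun s x hx => P.euler_C cut nu s hx, P.cd_U, P.cd_C,
    fun s x hx => ⟨fun i => cut.resc_eq _ _ s hx, P.CC_eq cut nu s hx⟩⟩⟩

end Pool.Agent.BoltzM
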