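import Pool.Agent.BoltzM.Bg.Br

/-! The calculus of uniform symbols `Sy`. -/

set_option autoImplicit false

open Pool.Agent.BoltzM.BoltzC Finset Filter Topology
open scoped ContDiff

noncomputable section

namespace Pool.Agent.BoltzM

variable [Dim]

variable {T : Type*} {P Q : T → E3 → Prop} {σ τ m m' a b : T → E3 → ℝ}

/-- The bound for one word. -/
def BdW (P : T → E3 → Prop) (σ m a : T → E3 → ℝ) (w : List Ix) : Prop :=
  ∃ K : ℝ, 0 < K ∧ ∀ t x, P t x → σ t x ^ w.length * |dXw w (a t) x| ≤ K * m t x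

theorem BdW.nonneg (h : BdW P σ m a []) {t : T} {x : E3} (hp : P t x) : 0 ≤ m t x := by
  obtain ⟨K, hK, H⟩ := h
  have h1 := H t x hp
  have h2 : 0 ≤ K * m t x := le_trans (by simp) h1
  exact nonneg_of_mul_nonneg_right h2 hK

theorem list_bd {ι : Type*} (l : List ι) (f : ι → T → E3 → ℝ) (c M : T → E3 → ℝ)
    (hc : ∀ t x, P t x → 0 ≤ c t x) (hM : ∀ t x, P t x → 0 ≤ M t x)
    (h : ∀ p ∈ l, ∃ K : ℝ, 0 < K ∧ ∀ t x, P t x → c t x * |f p t x| ≤ K * M t x) :
    ∃ K : ℝ, 0 < K ∧ ∀ t x, P t x → c t x * |(l.map fun p => f p t x).sum| ≤ K * M t x := by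
  induction l with
  | nil => exact ⟨1, one_pos, fun t x hp => by simpa using hM t x hp⟩
  | cons p l ih =>
    obtain ⟨K1, h1, H1⟩ := h p (by simp)
    obtain ⟨K2, h2, H2⟩ := ih fun q hq => h q (by simp [hq])
    refine ⟨K1 + K2, by positivity, fun t x hp => ?_⟩
    rw [List.map_cons, List.sum_cons, add_mul]
    refine le_trans (mul_le_mul_of_nonneg_left (abs_add_le _ _) (hc t x hp)) ?_
    rw [mul_add]
    exact add_le_add (H1 t x hp) (H2 t x hp)

theorem bdW_mul (ha : ∀ t, ContDiff ℝ ∞ (a t)) (hb : ∀ t, ContDiff ℝ ∞ (b t))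
    (hσ : ∀ t x, P t x → 0 < σ t x) (w : List Ix)
    (h1 : ∀ u : List Ix, u.length ≤ w.length → BdW P σ m a u)
    (h2 : ∀ u : List Ix, u.length ≤ w.length → BdW P σ m' b u) :
    BdW P σ (fun t x => m t x * m' t x) (fun t x => a t x * b t x) w := by
  have hm : ∀ t x, P t x → 0 ≤ m t x := fun t x hp => (h1 [] (by simp)).nonneg hp
  have hm' : ∀ t x, P t x → 0 ≤ m' t x := fun t x hp => (h2 [] (by simp)).nonneg hp
  obtain ⟨K, hK, H⟩ := list_bd (P := P) (splits w)
    (fun p t x => dXw p.1 (a t) x * dXw p.2 (b t) x) (fun t x => σ t x ^ w.length)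
    (fun t x => m t x * m' t x) (fun t x hp => (pow_pos (hσ t x hp) _).le)
    (fun t x hp => mul_nonneg (hm t x hp) (hm' t x hp)) (fun p hp => by
      have hl := length_of_mem_splits hp
      obtain ⟨K1, k1, H1⟩ := h1 p.1 (by omega)
      obtain ⟨K2, k2, H2⟩ := h2 p.2 (by omega)
      refine ⟨K1 * K2, by positivity, fun t x hx => ?_⟩
      have s0 := hσ t x hx
      have := mul_le_mul (H1 t x hx) (H2 t x hx) (by positivity)
        (mul_nonneg k1.le (hm t x hx))
      rw [← hl, pow_add, abs_mul]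
      linarith)
  refine ⟨K, hK, fun t x hp => ?_⟩
  have e := congrFun (dXw_smul (sm_of_cd (ha t)) (sm_of_cd (hb t)) w) x
  simp only [smul_eq_mul] at e
  rw [e]
  exact H t x hp

namespace Sy

theorem sm (h : Sy P σ m a) (t : T) : Sm (a t) := sm_of_cd (h.cd t)

theorem bdW (h : Sy P σ m a) (w : List Ix) : BdW P σ m a w := h.bd w

theorem nonneg (h : Sy P σ m a) {t : T} {x : E3} (hp : P t x) : 0 ≤ m t x := (h.bdW []).nonneg hp

theorem abs_le (h : Sy P σ m a) : ∃ K : ℝ, 0 < K ∧ ∀ t x, P t x → |a t x| ≤ K * m t x := by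
  obtain ⟨K, hK, H⟩ := h.bd []
  exact ⟨K, hK, fun t x hp => by simpa using H t x hp⟩

theorem abs_dX_le (h : Sy P σ m a) :
    ∃ K : ℝ, 0 < K ∧ ∀ i t x, P t x → σ t x * |dX i (a t) x| ≤ K * m t x := by
  choose K hK H using fun i : Ix => h.bd [i]
  refine ⟨∑ i, K i, sum_pos (fun i _ => hK i) univ_nonempty, fun i t x hp => ?_⟩
  have h1 : σ t x * |dX i (a t) x| ≤ K i * m t x := by simpa using H i t x hp
  exact h1.trans (mul_le_mul_of_nonneg_right
    (single_le_sum (f := K) (fun j _ => (hK j).le) (mem_univ i)) (h.nonneg hp))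

theorem mono (h : Sy P σ m a) {c : ℝ} (hc : 0 < c) (hm : ∀ t x, P t x → m t x ≤ c * m' t x) :
    Sy P σ m' a := by
  refine ⟨h.cd, h.pos, fun w => ?_⟩
  obtain ⟨K, hK, H⟩ := h.bd w
  refine ⟨K * c, by positivity, fun t x hp => (H t x hp).trans ?_⟩
  rw [mul_assoc]
  exact mul_le_mul_of_nonneg_left (hm t x hp) hK.le

theorem mono_le (h : Sy P σ m a) (hm : ∀ t x, P t x → m t x ≤ m' t x) : Sy P σ m' a :=
  h.mono one_pos fun t x hp => by simpa using hm t x hp

theorem congr_m (h : Sy P σ m a) (hm : ∀ t x, P t x → m t x = m' t x) : Sy P σ m' a :=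
  h.mono_le fun t x hp => (hm t x hp).le

theorem restrict (h : Sy P σ m a) (hQ : ∀ t x, Q t x → P t x) : Sy Q σ m a :=
  ⟨h.cd, fun t x hq => h.pos t x (hQ t x hq), fun w =>
    let ⟨K, hK, H⟩ := h.bd w
    ⟨K, hK, fun t x hq => H t x (hQ t x hq)⟩⟩

theorem scale (h : Sy P σ m a) {c : ℝ} (hc : 0 < c)
    (hτ : ∀ t x, P t x → 0 < τ t x ∧ τ t x ≤ c * σ t x) : Sy P τ m a := by
  refine ⟨h.cd, fun t x hp => (hτ t x hp).1, fun w => ?_⟩
  obtain ⟨K, hK, H⟩ := h.bd w
  refine ⟨c ^ w.length * K, by positivity, fun t x hp => ?_⟩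
  have h1 : τ t x ^ w.length ≤ c ^ w.length * σ t x ^ w.length := by
    rw [← mul_pow]
    exact pow_le_pow_left₀ (hτ t x hp).1.le (hτ t x hp).2 _
  calc τ t x ^ w.length * |dXw w (a t) x|
      ≤ c ^ w.length * σ t x ^ w.length * |dXw w (a t) x| :=
        mul_le_mul_of_nonneg_right h1 (abs_nonneg _)
    _ = c ^ w.length * (σ t x ^ w.length * |dXw w (a t) x|) := by ring
    _ ≤ c ^ w.length * (K * m t x) := mul_le_mul_of_nonneg_left (H t x hp) (by positivity)
    _ = _ := by ring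

theorem reparam {T' : Type*} (h : Sy P σ m a) (f : T' → T) :
    Sy (fun t => P (f t)) (fun t => σ (f t)) (fun t => m (f t)) fun t => a (f t) :=
  ⟨fun t => h.cd (f t), fun t => h.pos (f t), fun w =>
    let ⟨K, hK, H⟩ := h.bd w
    ⟨K, hK, fun t => H (f t)⟩⟩

theorem congr (h : Sy P σ m a) (e : ∀ t x, a t x = b t x) : Sy P σ m b := by
  have : a = b := funext fun t => funext (e t)
  exact this ▸ h

theorem congr_loc (h : Sy P σ m a) (hb : ∀ t, ContDiff ℝ ∞ (b t))
    (e : ∀ t x, P t x → b t =ᶠ[𝓝 x] a t) : Sy P σ m b := by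
  refine ⟨hb, h.pos, fun w => ?_⟩
  obtain ⟨K, hK, H⟩ := h.bd w
  exact ⟨K, hK, fun t x hp => by rw [dXw_congr_at (e t x hp)]; exact H t x hp⟩

theorem union {R : T → E3 → Prop} (h1 : Sy P σ m a) (h2 : Sy Q σ m a)
    (hR : ∀ t x, R t x → P t x ∨ Q t x) : Sy R σ m a := by
  refine ⟨h1.cd, fun t x hr => (hR t x hr).elim (h1.pos t x) (h2.pos t x), fun w => ?_⟩
  obtain ⟨K1, k1, H1⟩ := h1.bd w
  obtain ⟨K2, k2, H2⟩ := h2.bd w
  refine ⟨K1 + K2, by positivity, fun t x hr => ?_⟩
  rcases hR t x hr with hp | hq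
  · have := mul_nonneg k2.le (h1.nonneg hp)
    linarith [H1 t x hp]
  · have := mul_nonneg k1.le (h2.nonneg hq)
    linarith [H2 t x hq]

theorem const (hσ : ∀ t x, P t x → 0 < σ t x) (c : T → ℝ) :
    Sy P σ (fun t _ => |c t|) fun t _ => c t := by
  refine ⟨fun _ => contDiff_const, hσ, fun w => ⟨1, one_pos, fun t x _ => ?_⟩⟩
  by_cases hw : w = []
  · subst hw; simp
  · rw [dXw_const w hw]; simp

theorem const_le (hσ : ∀ t x, P t x → 0 < σ t x) (c : T → ℝ)
    (hm : ∀ t x, P t x → |c t| ≤ m t x) : Sy P σ m fun t _ => c t := (const hσ c).mono_le hm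

theorem const_one (hσ : ∀ t x, P t x → 0 < σ t x) (c : ℝ) : Sy P σ (fun _ _ => 1) fun _ _ => c :=
  (const hσ fun _ => c).mono (c := |c| + 1) (by positivity) fun _ _ _ => by simp

theorem zero (hσ : ∀ t x, P t x → 0 < σ t x) (hm : ∀ t x, P t x → 0 ≤ m t x) :
    Sy P σ m fun _ _ => 0 := const_le hσ (fun _ => 0) fun t x hp => by simpa using hm t x hp

theorem add (h1 : Sy P σ m a) (h2 : Sy P σ m b) : Sy P σ m fun t x => a t x + b t x := by
  refine ⟨fun t => (h1.cd t).add (h2.cd t), h1.pos, fun w => ?_⟩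
  obtain ⟨K1, k1, H1⟩ := h1.bd w
  obtain ⟨K2, k2, H2⟩ := h2.bd w
  refine ⟨K1 + K2, by positivity, fun t x hp => ?_⟩
  rw [dXw_add (h1.sm t) (h2.sm t)]
  have s0 := h1.pos t x hp
  refine le_trans (mul_le_mul_of_nonneg_left (abs_add_le _ _) (by positivity)) ?_
  linarith [H1 t x hp, H2 t x hp]

theorem mul (h1 : Sy P σ m a) (h2 : Sy P σ m' b) :
    Sy P σ (fun t x => m t x * m' t x) fun t x => a t x * b t x :=
  ⟨fun t => (h1.cd t).mul (h2.cd t), h1.pos, fun w =>
    bdW_mul h1.cd h2.cd h1.pos w (fun u _ => h1.bdW u) fun u _ => h2.bdW u⟩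

/-- Multiplication by a nonnegative function of the parameter. -/
theorem tmul (h : Sy P σ m a) (c : T → ℝ) (hc : ∀ t, 0 ≤ c t) :
    Sy P σ (fun t x => c t * m t x) fun t x => c t * a t x :=
  ((const h.pos c).mul h).congr_m fun t _ _ => by rw [abs_of_nonneg (hc t)]

/-- Multiplication by a bounded function of the parameter. -/
theorem bmul (h : Sy P σ m a) (c : T → ℝ) (M : ℝ) (hc : ∀ t x, P t x → |c t| ≤ M) :
    Sy P σ m fun t x => c t * a t x :=
  ((const h.pos c).mul h).mono (c := |M| + 1) (by positivity) fun t x hp =>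
    mul_le_mul_of_nonneg_right (by linarith [hc t x hp, le_abs_self M]) (h.nonneg hp)

theorem cmul (h : Sy P σ m a) (c : ℝ) : Sy P σ m fun t x => c * a t x :=
  h.bmul (fun _ => c) |c| fun _ _ _ => le_rfl

theorem neg (h : Sy P σ m a) : Sy P σ m fun t x => -a t x :=
  (h.cmul (-1)).congr fun _ _ => by ring

theorem sub (h1 : Sy P σ m a) (h2 : Sy P σ m b) : Sy P σ m fun t x => a t x - b t x :=
  (h1.add h2.neg).congr fun _ _ => by ring

/-- Product with a symbol of size one. -/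
theorem one_mul (h1 : Sy P σ (fun _ _ => 1) a) (h2 : Sy P σ m b) :
    Sy P σ m fun t x => a t x * b t x := (h1.mul h2).congr_m fun _ _ _ => by ring

theorem sum' {ι : Type*} (S : Finset ι) {f : ι → T → E3 → ℝ} (hσ : ∀ t x, P t x → 0 < σ t x)
    (hm : ∀ t x, P t x → 0 ≤ m t x) (h : ∀ j ∈ S, Sy P σ m (f j)) :
    Sy P σ m fun t x => ∑ j ∈ S, f j t x := by
  classical
  induction S using Finset.induction_on with
  | empty => simpa using zero hσ hm
  | insert j S hj ih =>
    simp only [sum_insert hj]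
    exact (h j (mem_insert_self _ _)).add (ih fun i hi => h i (mem_insert_of_mem hi))

theorem sum {ι : Type*} [Fintype ι] [Inhabited ι] {f : ι → T → E3 → ℝ}
    (h : ∀ j, Sy P σ m (f j)) : Sy P σ m fun t x => ∑ j, f j t x :=
  sum' univ (h default).pos (fun _ _ hp => (h default).nonneg hp) fun j _ => h j

theorem dX (h : Sy P σ m a) (i : Ix) :
    Sy P σ (fun t x => m t x / σ t x) fun t => dX i (a t) := by
  refine ⟨fun t => cd_dX (h.cd t) i, h.pos, fun w => ?_⟩
  obtain ⟨K, hK, H⟩ := h.bd (i :: w)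
  refine ⟨K, hK, fun t x hp => ?_⟩
  have s0 := h.pos t x hp
  have h1 := H t x hp
  rw [List.length_cons, dXw_cons, pow_succ] at h1
  rw [← mul_div_assoc, le_div_iff₀ s0]
  linarith

theorem dXw (h : Sy P σ m a) (w : List Ix) :
    Sy P σ (fun t x => m t x / σ t x ^ w.length) fun t => dXw w (a t) := by
  induction w generalizing m a with
  | nil => exact h.congr_m fun _ _ _ => by simp
  | cons i w ih =>
    refine (ih (h.dX i)).congr_m fun t x _ => ?_
    rw [List.length_cons, pow_succ', div_div]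

/-- A symbol is recognised from its size and its first derivatives. -/
theorem of_dX (hc : ∀ t, ContDiff ℝ ∞ (a t)) {c : ℝ} (hc0 : 0 < c)
    (h0 : ∀ t x, P t x → |a t x| ≤ c * m t x)
    (h : ∀ i, Sy P σ (fun t x => m t x / σ t x) fun t => BoltzC.dX i (a t)) : Sy P σ m a := by
  refine ⟨hc, (h 0).pos, fun w => ?_⟩
  cases w with
  | nil => exact ⟨c, hc0, fun t x hp => by simpa using h0 t x hp⟩
  | cons i w =>
    obtain ⟨K, hK, H⟩ := (h i).bd w
    refine ⟨K, hK, fun t x hp => ?_⟩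
    have s0 := (h 0).pos t x hp
    have h1 := H t x hp
    rw [← mul_div_assoc, le_div_iff₀ s0] at h1
    rw [List.length_cons, dXw_cons, pow_succ]
    linarith

theorem pow (h : Sy P σ m a) (n : ℕ) : Sy P σ (fun t x => m t x ^ n) fun t x => a t x ^ n := by
  induction n with
  | zero => simpa using const_one h.pos 1
  | succ n ih => simpa only [pow_succ] using ih.mul h

end Sy

theorem dX_rpow {f : E3 → ℝ} (hf : ContDiff ℝ ∞ f) {x : E3} (h : f x ≠ 0) (p : ℝ) (i : Ix) :
    dX i (fun y => f y ^ p) x = p * (f x ^ (p - 1) * dX i f x) := by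
  have h1 := (cd_dif hf i x).hasDerivAt
  have h2 := h1.rpow_const (p := p) (Or.inl (by simpa using h))
  refine (dX_eq (G := fun y => f y ^ p) h2.hd).trans ?_
  simp only [zero_smul, add_zero]
  ring

namespace Sy

/-- Real powers of a positive symbol of its own size; the exponent may depend on the parameter. -/
theorem rpow_self' (h : Sy P σ a a) (hpos : ∀ t x, 0 < a t x) (p : T → ℝ) (M : ℝ)
    (hp : ∀ t x, P t x → |p t| ≤ M) :
    Sy P σ (fun t x => a t x ^ p t) fun t x => a t x ^ p t := by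
  have hcd : ∀ (p : T → ℝ) t, ContDiff ℝ ∞ fun x => a t x ^ p t := fun p t =>
    (h.cd t).rpow_const_of_ne fun x => (hpos t x).ne'
  have key : ∀ n : ℕ, ∀ (p : T → ℝ) (M : ℝ), (∀ t x, P t x → |p t| ≤ M) →
      ∀ w : List Ix, w.length ≤ n →
        BdW P σ (fun t x => a t x ^ p t) (fun t x => a t x ^ p t) w := by
    intro n
    induction n with
    | zero =>
      intro p M _ w hw
      obtain rfl : w = [] := List.length_eq_zero_iff.1 (by omega)
      exact ⟨1, one_pos, fun t x _ => by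
        simp [abs_of_pos (Real.rpow_pos_of_pos (hpos t x) (p t))]⟩
    | succ n ih =>
      intro p M hp w hw
      cases w with
      | nil => exact ih p M hp [] (by simp)
      | cons i u =>
        have hu : u.length ≤ n := by simpa using hw
        obtain ⟨K, hK, H⟩ := bdW_mul (hcd fun t => p t - 1) (h.dX i).cd h.pos u
          (fun v hv => ih (fun t => p t - 1) (M + 1) (fun t x hx => by
            have := hp t x hx
            have := abs_sub (p t) 1
            simp only [abs_one] at this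
            linarith) v (hv.trans hu))
          fun v _ => (h.dX i).bdW v
        refine ⟨(|M| + 1) * K, by positivity, fun t x hx => ?_⟩
        have e : BoltzC.dX i (fun x => a t x ^ p t) =
            fun x => p t • (a t x ^ (p t - 1) * BoltzC.dX i (a t) x) :=
          funext fun y => dX_rpow (h.cd t) (hpos t y).ne' (p t) i
        have s0 := h.pos t x hx
        have a0 := hpos t x
        have h1 := H t x hx
        have h2 : |p t| ≤ |M| + 1 := by linarith [hp t x hx, le_abs_self M]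
        have e2 : a t x ^ (p t - 1) * (a t x / σ t x) = a t x ^ p t / σ t x := by
          rw [Real.rpow_sub_one a0.ne']
          field_simp
        simp only [e2] at h1
        rw [← mul_div_assoc, le_div_iff₀ s0] at h1
        have hs : Sm fun x => a t x ^ (p t - 1) * BoltzC.dX i (a t) x :=
          sm_of_cd ((hcd (fun t => p t - 1) t).mul (cd_dX (h.cd t) i))
        have e3 : BoltzC.dXw (i :: u) (fun x => a t x ^ p t) x =
            p t * BoltzC.dXw u (fun x => a t x ^ (p t - 1) * BoltzC.dX i (a t) x) x := by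
          rw [dXw_cons, e]
          exact congrFun (dXw_const_smul hs (p t) u) x
        show σ t x ^ (u.length + 1) * |BoltzC.dXw (i :: u) (fun x => a t x ^ p t) x| ≤
          (|M| + 1) * K * a t x ^ p t
        rw [e3, pow_succ, abs_mul]
        set D := |BoltzC.dXw u (fun x => a t x ^ (p t - 1) * BoltzC.dX i (a t) x) x| with hD
        have D0 : 0 ≤ σ t x ^ u.length * D * σ t x := by positivity
        calc σ t x ^ u.length * σ t x * (|p t| * D)
            = |p t| * (σ t x ^ u.length * D * σ t x) := by ring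
          _ ≤ (|M| + 1) * (K * a t x ^ p t) := mul_le_mul h2 h1 D0 (by positivity)
          _ = _ := by ring
  exact ⟨hcd p, h.pos, fun w => key w.length p M hp w le_rfl⟩

theorem rpow_self (h : Sy P σ a a) (hpos : ∀ t x, 0 < a t x) (p : ℝ) :
    Sy P σ (fun t x => a t x ^ p) fun t x => a t x ^ p :=
  h.rpow_self' hpos (fun _ => p) |p| fun _ _ _ => le_rfl

/-- An elliptic symbol is a symbol of its own size. -/
theorem self (h : Sy P σ m a) {c : ℝ} (hc : 0 < c) (hlow : ∀ t x, P t x → c * m t x ≤ a t x) :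
    Sy P σ a a :=
  h.mono (c := c⁻¹) (by positivity) fun t x hp => by
    rw [inv_mul_eq_div, le_div_iff₀ hc, mul_comm]
    exact hlow t x hp

/-- Real powers of an elliptic symbol. -/
theorem rpow (h : Sy P σ m a) (hpos : ∀ t x, 0 < a t x) {c : ℝ} (hc : 0 < c)
    (hlow : ∀ t x, P t x → c * m t x ≤ a t x) (p : ℝ) :
    Sy P σ (fun t x => m t x ^ p) fun t x => a t x ^ p := by
  obtain ⟨K, hK, H⟩ := h.abs_le
  have h1 := (h.self hc hlow).rpow_self hpos p
  have hm : ∀ t x, P t x → 0 < m t x := fun t x hp => by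
    have := (hpos t x).trans_le ((le_abs_self _).trans (H t x hp))
    exact (mul_pos_iff_of_pos_left hK).1 this
  rcases le_total 0 p with hp0 | hp0
  · refine h1.mono (c := K ^ p) (by positivity) fun t x hp => ?_
    rw [← Real.mul_rpow hK.le (hm t x hp).le]
    exact Real.rpow_le_rpow (hpos t x).le ((le_abs_self _).trans (H t x hp)) hp0
  · refine h1.mono (c := c ^ p) (by positivity) fun t x hp => ?_
    rw [← Real.mul_rpow hc.le (hm t x hp).le]
    exact Real.rpow_le_rpow_of_nonpos (mul_pos hc (hm t x hp)) (hlow t x hp) hp0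

theorem inv (h : Sy P σ m a) (hpos : ∀ t x, 0 < a t x) {c : ℝ} (hc : 0 < c)
    (hlow : ∀ t x, P t x → c * m t x ≤ a t x) :
    Sy P σ (fun t x => (m t x)⁻¹) fun t x => (a t x)⁻¹ := by
  simpa only [Real.rpow_neg_one] using h.rpow hpos hc hlow (-1)

theorem div (h1 : Sy P σ m' b) (h : Sy P σ m a) (hpos : ∀ t x, 0 < a t x) {c : ℝ} (hc : 0 < c)
    (hlow : ∀ t x, P t x → c * m t x ≤ a t x) :
    Sy P σ (fun t x => m' t x / m t x) fun t x => b t x / a t x := by
  simpa only [div_eq_mul_inv] using h1.mul (h.inv hpos hc hlow)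

theorem sqrt_self (h : Sy P σ a a) (hpos : ∀ t x, 0 < a t x) :
    Sy P σ (fun t x => √(a t x)) fun t x => √(a t x) := by
  simpa only [Real.sqrt_eq_rpow] using h.rpow_self hpos (1 / 2)

/-! ### Periodic functions -/

/-- Periodic symbols only need to be checked on one period cell. -/
theorem of_box {p : T → Prop} (h : Sy (fun t x => p t ∧ box (1 / 2) x) σ m a)
    (pσ : ∀ t, Per (σ t)) (pm : ∀ t, Per (m t)) (pa : ∀ t, Per (a t)) :
    Sy (fun t _ => p t) σ m a := by
  refine ⟨h.cd, fun t x ht => per_red (p := fun x => 0 < σ t x) ((pσ t).map fun v => 0 < v)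
    (fun y hy => h.pos t y ⟨ht, hy⟩) x, fun w => ?_⟩
  obtain ⟨K, hK, H⟩ := h.bd w
  refine ⟨K, hK, fun t x ht => per_red
    (p := fun x => σ t x ^ w.length * |BoltzC.dXw w (a t) x| ≤ K * m t x) (fun i y => ?_)
    (fun y hy => H t y ⟨ht, hy⟩) x⟩
  simp only [pσ t i y, pm t i y, (pa t).dXw w i y]

/-- Periodic symbols: the inner box and the rest of the period cell. -/
theorem of_inn_out {p : T → Prop} (h1 : Sy (fun t x => p t ∧ inn x) σ m a)
    (h2 : Sy (fun t x => p t ∧ box (1 / 2) x ∧ ¬inn x) σ m a)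
    (pσ : ∀ t, Per (σ t)) (pm : ∀ t, Per (m t)) (pa : ∀ t, Per (a t)) :
    Sy (fun t _ => p t) σ m a :=
  of_box (h1.union h2 fun t x hx => by
    by_cases hi : inn x
    · exact Or.inl ⟨hx.1, hi⟩
    · exact Or.inr ⟨hx.1, hx.2, hi⟩) pσ pm pa

/-- A fixed smooth periodic function is a symbol of size one at every bounded scale. -/
theorem of_per {f : E3 → ℝ} (hf : ContDiff ℝ ∞ f) (pf : Per f) (c : ℝ)
    (hσ : ∀ t x, P t x → 0 < σ t x ∧ σ t x ≤ c) : Sy P σ (fun _ _ => 1) fun _ => f := by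
  refine ⟨fun _ => hf, fun t x hp => (hσ t x hp).1, fun w => ?_⟩
  obtain ⟨C, hC, H⟩ := (pf.dXw w).exists_bound (cd_dXw hf w).continuous
  refine ⟨(|c| + 1) ^ w.length * C, by positivity, fun t x hp => ?_⟩
  rw [mul_one]
  exact mul_le_mul (pow_le_pow_left₀ (hσ t x hp).1.le
    (by linarith [(hσ t x hp).2, le_abs_self c]) _) (H x) (abs_nonneg _) (by positivity)

/-! ### Translation to and from `SymBd` -/

theorem exists_K (h : Sy P σ m a) : ∃ K : ℕ → ℝ, (∀ n, 0 < K n) ∧
    ∀ (w : List Ix) t x, P t x →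
      σ t x ^ w.length * |BoltzC.dXw w (a t) x| ≤ K w.length * m t x := by
  choose K hK H using h.bd
  refine ⟨fun n => 1 + ∑ f : Fin n → Ix, K (List.ofFn f), fun n => ?_, fun w t x hp => ?_⟩
  · have := sum_nonneg (s := univ) fun (f : Fin n → Ix) _ => (hK (List.ofFn f)).le
    linarith
  · refine (H w t x hp).trans (mul_le_mul_of_nonneg_right ?_ (h.nonneg hp))
    have := single_le_sum (f := fun f : Fin w.length → Ix => K (List.ofFn f))
      (fun f _ => (hK _).le) (mem_univ w.get)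
    simp only [List.ofFn_get] at this
    linarith

theorem symBd {p : T → Prop} (h : Sy (fun t _ => p t) σ m a) :
    ∃ K : ℕ → ℝ, (∀ n, 0 < K n) ∧ ∀ t, p t → SymBd K 0 (σ t) (m t) (a t) := by
  obtain ⟨K, hK, H⟩ := h.exists_K
  exact ⟨K, hK, fun t ht w _ x => H w t x ht⟩

theorem of_symBd {p : T → Prop} {K : ℕ → ℝ} (hc : ∀ t, ContDiff ℝ ∞ (a t))
    (hσ : ∀ t x, p t → 0 < σ t x) (hm : ∀ t x, p t → 0 ≤ m t x)
    (h : ∀ t, p t → SymBd K 0 (σ t) (m t) (a t)) : Sy (fun t _ => p t) σ m a :=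
  ⟨hc, hσ, fun w => ⟨|K w.length| + 1, by positivity, fun t x ht =>
    (h t ht w (Nat.zero_le _) x).trans (mul_le_mul_of_nonneg_right
      (by linarith [le_abs_self (K w.length)]) (hm t x ht))⟩⟩

theorem slow {p : T → Prop} (h : Sy (fun t _ => p t) σ a a) (pa : ∀ t, Per (a t))
    (hpos : ∀ t x, 0 < a t x) : ∃ K : ℝ, 0 < K ∧ ∀ t, p t → Slow K (σ t) (a t) := by
  obtain ⟨K, hK, H⟩ := h.abs_dX_le
  exact ⟨K, hK, fun t ht => ⟨h.sm t, pa t, hpos t, fun i x => H i t x ht⟩⟩

end Sy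

theorem SymBd.mono_K {K K' : ℕ → ℝ} {n0 : ℕ} {s m a : E3 → ℝ} (h : SymBd K n0 s m a)
    (hK : ∀ n, K n ≤ K' n) (hm : ∀ x, 0 ≤ m x) : SymBd K' n0 s m a :=
  fun w hw x => (h w hw x).trans (mul_le_mul_of_nonneg_right (hK _) (hm x))

theorem SymBd.mono_n {K : ℕ → ℝ} {n0 n1 : ℕ} {s m a : E3 → ℝ} (h : SymBd K n0 s m a)
    (hn : n0 ≤ n1) : SymBd K n1 s m a := fun w hw x => h w (hn.trans hw) x

theorem Slow.mono_K {K K' : ℝ} {s a : E3 → ℝ} (h : Slow K s a) (hK : K ≤ K') : Slow K' s a :=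
  ⟨h.sm, h.per, h.pos, fun i x => (h.bd i x).trans (mul_le_mul_of_nonneg_right hK (h.pos x).le)⟩

end Pool.Agent.BoltzM
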