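import Pool.Agent.BoltzM.Bg.Br

/-! The cut-off data and the weights `Lam`, `sig`, `mu`, `om`: comparisons, smoothness,
periodicity and first derivatives. -/

set_option autoImplicit false

open Pool.Agent.BoltzM.BoltzC Finset Filter Topology
open scoped ContDiff

noncomputable section

namespace Pool.Agent.BoltzM

variable [Dim]

theorem cd_coord (i : Ix) : ContDiff ℝ ∞ fun y : E3 => y i := by fun_prop

theorem cd_norm_sq : ContDiff ℝ ∞ fun y : E3 => ‖y‖ ^ 2 := contDiff_norm_sq ℝ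

theorem dX_coord (i j : Ix) : dX i (fun y : E3 => y j) = fun _ => if j = i then 1 else 0 := by
  funext x
  have := dX_of_hasFDerivAt ((EuclideanSpace.proj j : E3 →L[ℝ] ℝ).hasFDerivAt (x := x)) i
  simpa [ev_coord] using this

theorem dX_norm_sq (i : Ix) (x : E3) : dX i (fun y : E3 => ‖y‖ ^ 2) x = 2 * x i := by
  have := dX_of_hasFDerivAt (hasStrictFDerivAt_norm_sq x).hasFDerivAt i
  simpa [ev, EuclideanSpace.inner_single_right] using this

theorem abs_coord_le_nrm (x : E3) (i : Ix) : |x i| ≤ ‖x‖ := by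
  simpa using PiLp.norm_apply_le x i

theorem jb_pos (y : E3) : 0 < jb y := Real.sqrt_pos.2 (by positivity)

theorem jb_sq (y : E3) : jb y ^ 2 = 1 + ‖y‖ ^ 2 := Real.sq_sqrt (by positivity)

theorem one_le_jb (y : E3) : 1 ≤ jb y := Real.le_sqrt_of_sq_le (by nlinarith [sq_nonneg ‖y‖])

theorem norm_le_jb (y : E3) : ‖y‖ ≤ jb y := Real.le_sqrt_of_sq_le (by linarith)

theorem jb_rpow (y : E3) (p : ℝ) : jb y ^ p = (1 + ‖y‖ ^ 2) ^ (p / 2) := by
  rw [jb, Real.sqrt_eq_rpow, ← Real.rpow_mul (by positivity)]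
  congr 1
  ring

namespace Cut

variable (cut : Cut)

theorem rho2_nonneg (x : E3) : 0 ≤ cut.rho2 x :=
  per_red (p := fun x => 0 ≤ cut.rho2 x) (cut.per_rho2.map fun v => 0 ≤ v)
    (fun y hy => le_trans (by positivity) (cut.rho2_ge y hy)) x

theorem rho2_ge_out {x : E3} (h : box (1 / 2) x) (hi : ¬inn x) : 1 / 192 ≤ cut.rho2 x := by
  linarith [cut.rho2_ge x h, norm_sq_ge_of_not_inn hi]

theorem rho2_ge_of_not_box {a : ℝ} (ha : 0 ≤ a) {x : E3} (h : box (1 / 2) x) (hi : ¬box a x) :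
    a ^ 2 / 12 ≤ cut.rho2 x := by
  linarith [cut.rho2_ge x h, norm_sq_ge_of_not_box ha hi]

theorem rho2_loc {x : E3} (h : inn x) : cut.rho2 =ᶠ[𝓝 x] fun y => ‖y‖ ^ 2 :=
  h.eventually.mono fun y hy => cut.rho2_eq y hy

theorem pi_loc {x : E3} (h : inn x) : cut.pi =ᶠ[𝓝 x] fun y => y :=
  h.eventually.mono fun y hy => cut.pi_eq y hy

theorem chi_loc_one {x : E3} (h : ∀ i, |x i| < 1 / 8) : cut.chi =ᶠ[𝓝 x] fun _ => 1 :=
  (eventually_box h).mono fun y hy => cut.chi_one y hy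

theorem box_of_chi_ne {x : E3} (h : box (1 / 2) x) (hc : cut.chi x ≠ 0) : box (1 / 5) x := by
  by_contra hb
  exact hc (cut.chi_zero x h hb)

theorem chi_loc_zero {x : E3} (h : box (1 / 2) x) (hi : ¬inn x) :
    cut.chi =ᶠ[𝓝 x] fun _ => 0 := by
  unfold inn at hi
  push Not at hi
  obtain ⟨i, hi⟩ := hi
  have hev : ∀ᶠ y : E3 in 𝓝 x, |y i - x i| < 1 / 20 :=
    (isOpen_lt (f := fun y : E3 => |y i - x i|) (by fun_prop) continuous_const).mem_nhds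
      (by simp)
  filter_upwards [hev] with y hy
  obtain ⟨z, ⟨n, hn⟩, hz⟩ := exists_red y
  rw [← cut.per_chi.add_of_int n hn y]
  refine cut.chi_zero _ hz fun hb => ?_
  have h1 : |y i + n i| ≤ 1 / 5 := by simpa [hn i] using hb i
  have h2 := h i
  rw [abs_le] at h1 h2
  rw [abs_lt] at hy
  have h3 : (n i : ℝ) < 1 := by linarith
  have h4 : (-1 : ℝ) < n i := by linarith
  have h5 : n i = 0 := by
    have : n i < 1 := by exact_mod_cast h3
    have : -1 < n i := by exact_mod_cast h4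
    omega
  rw [h5] at h1
  simp only [Int.cast_zero, add_zero] at h1
  rcases le_abs.1 hi with h6 | h6 <;> linarith

theorem dX_rho2_inn {x : E3} (h : inn x) (i : Ix) : dX i cut.rho2 x = 2 * x i := by
  rw [dX_congr_at (cut.rho2_loc h), dX_norm_sq]

theorem cd_comp {Φ : E3 → ℝ} (h : ContDiff ℝ ∞ Φ) : CD fun s x => Φ (Real.exp s • cut.pi x) :=
  h.comp ((Real.contDiff_exp.comp contDiff_fst).smul (cut.cd_pi.comp contDiff_snd))

theorem abs_dX_rho2_le : ∃ K : ℝ, 0 < K ∧ ∀ i x, |dX i cut.rho2 x| ≤ K * √(cut.rho2 x) := by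
  choose C hC H using fun i => (cut.per_rho2.dX i).exists_bound (cd_dX cut.cd_rho2 i).continuous
  have hs : 0 ≤ ∑ i, C i := sum_nonneg fun i _ => (hC i).le
  refine ⟨2 + 14 * ∑ i, C i, by positivity, fun i x => per_red
    (p := fun x => |dX i cut.rho2 x| ≤ (2 + 14 * ∑ i, C i) * √(cut.rho2 x)) (fun j y => ?_)
    (fun y hy => ?_) x⟩
  · simp only [cut.per_rho2 j y, cut.per_rho2.dX i j y]
  · have h0 := Real.sqrt_nonneg (cut.rho2 y)
    by_cases hi : inn y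
    · rw [cut.dX_rho2_inn hi, cut.rho2_eq y hi.to_box, Real.sqrt_sq (norm_nonneg y), abs_mul]
      have := abs_coord_le_nrm y i
      have := mul_nonneg hs (norm_nonneg y)
      rw [abs_two]
      linarith
    · have h1 : 1 / 14 ≤ √(cut.rho2 y) :=
        Real.le_sqrt_of_sq_le (by linarith [cut.rho2_ge_out hy hi])
      have h2 : C i ≤ ∑ i, C i := single_le_sum (f := C) (fun j _ => (hC j).le) (mem_univ i)
      have h3 := mul_le_mul_of_nonneg_left h1 hs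
      linarith [H i y]

end Cut

theorem exp_neg_sq (s : ℝ) : Real.exp (-s) ^ 2 = Real.exp (-2 * s) := by
  rw [← Real.exp_nat_mul]; congr 1; push_cast; ring

namespace BgD

variable (B : BgD)

/-- The second term of `sig0`. -/
def SS (s : ℝ) (x : E3) : ℝ := √(Real.exp (-2 * s) + B.nu ^ 2 * B.cut.rho2 x)

theorem sig0_eq (s : ℝ) (x : E3) : B.sig0 s x = Real.exp (-s) + B.SS s x := rfl

theorem Lam2_pos (s : ℝ) (x : E3) : 0 < Real.exp (-2 * s) + B.cut.rho2 x :=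
  add_pos_of_pos_of_nonneg (Real.exp_pos _) (B.cut.rho2_nonneg x)

theorem SS2_pos (s : ℝ) (x : E3) : 0 < Real.exp (-2 * s) + B.nu ^ 2 * B.cut.rho2 x :=
  add_pos_of_pos_of_nonneg (Real.exp_pos _) (mul_nonneg (sq_nonneg _) (B.cut.rho2_nonneg x))

theorem Lam_pos (s : ℝ) (x : E3) : 0 < B.Lam s x := Real.sqrt_pos.2 (B.Lam2_pos s x)

theorem SS_pos (s : ℝ) (x : E3) : 0 < B.SS s x := Real.sqrt_pos.2 (B.SS2_pos s x)

theorem ph_pos (s : ℝ) (x : E3) : 0 < B.ph s x := one_pos.trans_le (B.one_le_ph s x)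

theorem sig_pos (s : ℝ) (x : E3) : 0 < B.sig s x := mul_pos (B.sig0_pos s x) (B.ph_pos s x)

theorem mu_pos (s : ℝ) (x : E3) : 0 < B.mu s x :=
  mul_pos (Real.exp_pos _) (Real.rpow_pos_of_pos (B.Lam_pos s x) _)

theorem om_pos (a s : ℝ) (x : E3) : 0 < B.om a s x :=
  mul_pos (Real.exp_pos _) (Real.rpow_pos_of_pos (B.Lam_pos s x) _)

theorem Lam_sq (s : ℝ) (x : E3) : B.Lam s x ^ 2 = Real.exp (-2 * s) + B.cut.rho2 x :=
  Real.sq_sqrt (B.Lam2_pos s x).le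

theorem SS_sq (s : ℝ) (x : E3) : B.SS s x ^ 2 = Real.exp (-2 * s) + B.nu ^ 2 * B.cut.rho2 x :=
  Real.sq_sqrt (B.SS2_pos s x).le

theorem exp_neg_le_Lam (s : ℝ) (x : E3) : Real.exp (-s) ≤ B.Lam s x :=
  Real.le_sqrt_of_sq_le (by rw [exp_neg_sq]; linarith [B.cut.rho2_nonneg x])

theorem exp_neg_le_SS (s : ℝ) (x : E3) : Real.exp (-s) ≤ B.SS s x :=
  Real.le_sqrt_of_sq_le (by
    rw [exp_neg_sq]; linarith [mul_nonneg (sq_nonneg B.nu) (B.cut.rho2_nonneg x)])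

theorem sqrt_rho2_le_Lam (s : ℝ) (x : E3) : √(B.cut.rho2 x) ≤ B.Lam s x :=
  Real.sqrt_le_sqrt (by linarith [Real.exp_pos (-2 * s)])

theorem nu_sqrt_rho2_le_SS (s : ℝ) (x : E3) : B.nu * √(B.cut.rho2 x) ≤ B.SS s x :=
  Real.le_sqrt_of_sq_le (by
    rw [mul_pow, Real.sq_sqrt (B.cut.rho2_nonneg x)]; linarith [Real.exp_pos (-2 * s)])

theorem Lam_le_dd {s : ℝ} (hs : 0 ≤ s) (x : E3) : B.Lam s x ≤ dd + 1 := by
  have h1 : Real.exp (-2 * s) ≤ 1 := Real.exp_le_one_iff.2 (by linarith)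
  have h2 := dr_pos
  exact Real.sqrt_le_iff.2 ⟨by positivity, by nlinarith [B.cut.rho2_le x]⟩

theorem Lam_ge_out (s : ℝ) {x : E3} (h : box (1 / 2) x) (hi : ¬inn x) : 1 / 14 ≤ B.Lam s x :=
  Real.le_sqrt_of_sq_le (by linarith [B.cut.rho2_ge_out h hi, Real.exp_pos (-2 * s)])

theorem Lam_ge_of_not_box (s : ℝ) {a : ℝ} (ha : 0 ≤ a) {x : E3} (h : box (1 / 2) x)
    (hi : ¬box a x) : a / 4 ≤ B.Lam s x :=
  Real.le_sqrt_of_sq_le (by
    nlinarith [B.cut.rho2_ge_of_not_box ha h hi, Real.exp_pos (-2 * s), sq_nonneg a])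

theorem norm_le_Lam (s : ℝ) {x : E3} (h : box (1 / 4) x) : ‖x‖ ≤ B.Lam s x :=
  Real.le_sqrt_of_sq_le (by rw [B.cut.rho2_eq x h]; linarith [Real.exp_pos (-2 * s)])

theorem norm_le_four_Lam (s : ℝ) {x : E3} (h : box (1 / 2) x) : ‖x‖ ≤ 4 * B.Lam s x := by
  have h1 : ‖x‖ / 4 ≤ B.Lam s x := Real.le_sqrt_of_sq_le (by
    nlinarith [B.cut.rho2_ge x h, Real.exp_pos (-2 * s), sq_nonneg ‖x‖])
  linarith

theorem exp_mul_Lam (s : ℝ) {x : E3} (h : box (1 / 4) x) :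
    Real.exp s * B.Lam s x = jb (Real.exp s • x) := by
  have h1 : Real.exp s ^ 2 * Real.exp (-2 * s) = 1 := by
    rw [← Real.exp_nat_mul, ← Real.exp_add]; simp
  rw [← sq_eq_sq₀ (mul_pos (Real.exp_pos s) (B.Lam_pos s x)).le (jb_pos _).le, mul_pow, Lam_sq,
    jb_sq, B.cut.rho2_eq x h, norm_smul, Real.norm_eq_abs, mul_pow, sq_abs, mul_add, h1]

theorem Lam_inn (s : ℝ) {x : E3} (h : box (1 / 4) x) :
    B.Lam s x = Real.exp (-s) * jb (Real.exp s • x) := by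
  rw [← B.exp_mul_Lam s h, ← mul_assoc, ← Real.exp_add]; simp

theorem one_le_vp (s : ℝ) (x : E3) : 1 ≤ Real.exp s * B.Lam s x := by
  have := mul_le_mul_of_nonneg_left (B.exp_neg_le_Lam s x) (Real.exp_pos s).le
  rwa [← Real.exp_add, add_neg_cancel, Real.exp_zero] at this

theorem vp_rpow (p s : ℝ) (x : E3) :
    (Real.exp s * B.Lam s x) ^ p = Real.exp (p * s) * B.Lam s x ^ p := by
  rw [Real.mul_rpow (Real.exp_pos s).le (B.Lam_pos s x).le, ← Real.exp_mul, mul_comm s p]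

theorem mu_eq (s : ℝ) (x : E3) : B.mu s x = (Real.exp s * B.Lam s x) ^ (-B.r) :=
  (B.vp_rpow _ s x).symm

theorem mu_le_one (hr : 0 ≤ B.r) (s : ℝ) (x : E3) : B.mu s x ≤ 1 := by
  rw [mu_eq]
  exact Real.rpow_le_one_of_one_le_of_nonpos (B.one_le_vp s x) (by linarith)

theorem SS_le_sig0 (s : ℝ) (x : E3) : B.SS s x ≤ B.sig0 s x := by
  rw [sig0_eq]; linarith [Real.exp_pos (-s)]

theorem sig0_le_two_SS (s : ℝ) (x : E3) : B.sig0 s x ≤ 2 * B.SS s x := by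
  rw [sig0_eq]; linarith [B.exp_neg_le_SS s x]

theorem SS_le_Lam (h0 : 0 ≤ B.nu) (h1 : B.nu ≤ 1) (s : ℝ) (x : E3) : B.SS s x ≤ B.Lam s x := by
  refine Real.sqrt_le_sqrt ?_
  have : B.nu ^ 2 ≤ 1 := pow_le_one₀ h0 h1
  nlinarith [B.cut.rho2_nonneg x]

theorem nu_Lam_le_SS (h0 : 0 ≤ B.nu) (h1 : B.nu ≤ 1) (s : ℝ) (x : E3) :
    B.nu * B.Lam s x ≤ B.SS s x := by
  refine Real.le_sqrt_of_sq_le ?_
  have : B.nu ^ 2 ≤ 1 := pow_le_one₀ h0 h1
  rw [mul_pow, Lam_sq]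
  nlinarith [Real.exp_pos (-2 * s)]

theorem sig0_le (h0 : 0 ≤ B.nu) (h1 : B.nu ≤ 1) (s : ℝ) (x : E3) :
    B.sig0 s x ≤ 2 * B.Lam s x := by
  linarith [B.sig0_le_two_SS s x, B.SS_le_Lam h0 h1 s x]

theorem nu_Lam_le_sig (h0 : 0 ≤ B.nu) (h1 : B.nu ≤ 1) (s : ℝ) (x : E3) :
    B.nu * B.Lam s x ≤ B.sig s x :=
  ((B.nu_Lam_le_SS h0 h1 s x).trans (B.SS_le_sig0 s x)).trans (B.sig0_le_sig s x)

theorem sig_le (h0 : 0 ≤ B.nu) (h1 : B.nu ≤ 1) (hF : ∃ S : ℝ, ∀ y, B.F y ≤ S) :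
    ∃ c : ℝ, 0 < c ∧ ∀ s x, B.sig s x ≤ c * B.Lam s x := by
  obtain ⟨S, hS⟩ := hF
  have h2 := (B.F_nonneg 0).trans (hS 0)
  refine ⟨2 * (1 + S), by positivity, fun s x => ?_⟩
  have h3 := mul_le_mul (B.cut.chi_le x) (hS (Real.exp s • B.cut.pi x)) (B.F_nonneg _) zero_le_one
  have h4 : B.ph s x ≤ 1 + S := by unfold ph; linarith
  have h5 := mul_le_mul (B.sig0_le h0 h1 s x) h4 (B.ph_pos s x).le (by linarith [B.Lam_pos s x])
  unfold sig
  linarith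

theorem SS_le (h0 : 0 ≤ B.nu) (s : ℝ) (x : E3) :
    B.SS s x ≤ Real.exp (-s) + B.nu * √(B.cut.rho2 x) := by
  have h2 := Real.exp_pos (-s)
  have h3 := Real.sqrt_nonneg (B.cut.rho2 x)
  refine Real.sqrt_le_iff.2 ⟨by positivity, ?_⟩
  rw [add_sq, mul_pow, Real.sq_sqrt (B.cut.rho2_nonneg x), ← exp_neg_sq]
  have : 0 ≤ 2 * Real.exp (-s) * (B.nu * √(B.cut.rho2 x)) := by positivity
  linarith

theorem mu_eq' (s : ℝ) (x : E3) : B.mu s x = (Real.exp (-s) / B.Lam s x) ^ B.r := by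
  rw [Real.div_rpow (Real.exp_pos _).le (B.Lam_pos s x).le, ← Real.exp_mul, mu,
    Real.rpow_neg (B.Lam_pos s x).le, div_eq_mul_inv]
  congr 2
  ring

theorem mu_Lam (s : ℝ) (x : E3) :
    Real.exp (-B.r * s) * B.Lam s x ^ (1 - B.r) = B.mu s x * B.Lam s x := by
  rw [mu, sub_eq_add_neg, Real.rpow_add (B.Lam_pos s x), Real.rpow_one]
  ring

theorem mu_split (s : ℝ) (x : E3) : B.mu s x =
    (Real.exp (-s) / B.Lam s x) ^ (B.r - 1) * (Real.exp (-s) / B.Lam s x) := by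
  rw [mu_eq', ← Real.rpow_add_one (div_pos (Real.exp_pos _) (B.Lam_pos s x)).ne', sub_add_cancel]

theorem mu_le (hr : 1 ≤ B.r) (s : ℝ) (x : E3) : B.mu s x ≤ Real.exp (-s) / B.Lam s x := by
  have h0 := div_pos (Real.exp_pos (-s)) (B.Lam_pos s x)
  rw [mu_eq']
  simpa using Real.rpow_le_rpow_of_exponent_ge h0
    ((div_le_one (B.Lam_pos s x)).2 (B.exp_neg_le_Lam s x)) hr

/-! ### Smoothness and periodicity -/

theorem cd_Lam2 : CD fun s x => Real.exp (-2 * s) + B.cut.rho2 x :=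
  (CD.exp_mul (-2)).add (CD.of_space B.cut.cd_rho2)

theorem cd_SS2 : CD fun s x => Real.exp (-2 * s) + B.nu ^ 2 * B.cut.rho2 x :=
  (CD.exp_mul (-2)).add ((CD.const _).mul (CD.of_space B.cut.cd_rho2))

theorem cd_Lam : CD B.Lam := B.cd_Lam2.sqrt fun s x => (B.Lam2_pos s x).ne'

theorem cd_SS : CD B.SS := B.cd_SS2.sqrt fun s x => (B.SS2_pos s x).ne'

theorem cd_sig0 : CD B.sig0 :=
  (CD.of_time (f := fun s => Real.exp (-s)) (by fun_prop)).add B.cd_SS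

theorem cd_ph : CD B.ph :=
  (CD.const 1).add ((CD.of_space B.cut.cd_chi).mul (B.cut.cd_comp B.cd_F))

theorem cd_sig : CD B.sig := B.cd_sig0.mul B.cd_ph

theorem cd_Lam_rpow (p : ℝ) : CD fun s x => B.Lam s x ^ p :=
  B.cd_Lam.rpow (fun s x => (B.Lam_pos s x).ne') p

theorem cd_mu : CD B.mu := (CD.exp_mul (-B.r)).mul (B.cd_Lam_rpow _)

theorem cd_om (a : ℝ) : CD (B.om a) := (CD.exp_mul (-2 * a)).mul (B.cd_Lam_rpow _)

theorem per_Lam (s : ℝ) : Per (B.Lam s) := fun i x => by simp only [Lam, B.cut.per_rho2 i x]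

theorem per_SS (s : ℝ) : Per (B.SS s) := fun i x => by simp only [SS, B.cut.per_rho2 i x]

theorem per_ph (s : ℝ) : Per (B.ph s) := fun i x => by
  simp only [ph, B.cut.per_chi i x, B.cut.per_pi i x]

theorem per_sig (s : ℝ) : Per (B.sig s) := fun i x => by
  simp only [sig, sig0, B.cut.per_rho2 i x, B.per_ph s i x]

theorem per_mu (s : ℝ) : Per (B.mu s) := fun i x => by simp only [mu, B.per_Lam s i x]

theorem per_om (a s : ℝ) : Per (B.om a s) := fun i x => by simp only [om, B.per_Lam s i x]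

/-! ### First derivatives -/

theorem hasDerivAt_exp_mul (c s : ℝ) :
    HasDerivAt (fun t => Real.exp (c * t)) (c * Real.exp (c * s)) s := by
  simpa [mul_comm] using ((hasDerivAt_id s).const_mul c).exp

theorem hasDerivAt_Lam (s : ℝ) (x : E3) :
    HasDerivAt (fun t => B.Lam t x) (-(Real.exp (-2 * s) / B.Lam s x)) s := by
  have h := ((hasDerivAt_exp_mul (-2) s).add_const (B.cut.rho2 x)).sqrt (B.Lam2_pos s x).ne'
  refine h.congr_deriv ?_
  have := (B.Lam_pos s x).ne'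
  change _ / (2 * B.Lam s x) = _
  field_simp

theorem hasDerivAt_SS (s : ℝ) (x : E3) :
    HasDerivAt (fun t => B.SS t x) (-(Real.exp (-2 * s) / B.SS s x)) s := by
  have h := ((hasDerivAt_exp_mul (-2) s).add_const (B.nu ^ 2 * B.cut.rho2 x)).sqrt
    (B.SS2_pos s x).ne'
  refine h.congr_deriv ?_
  have := (B.SS_pos s x).ne'
  change _ / (2 * B.SS s x) = _
  field_simp

theorem dS_Lam (s : ℝ) (x : E3) : dS B.Lam s x = -(Real.exp (-2 * s) / B.Lam s x) :=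
  dS_eq (B.hasDerivAt_Lam s x)

theorem dS_sig0 (s : ℝ) (x : E3) :
    dS B.sig0 s x = -(Real.exp (-s) / B.SS s x * B.sig0 s x) := by
  have h1 : HasDerivAt (fun t => Real.exp (-t)) (-Real.exp (-s)) s := by
    simpa using (hasDerivAt_neg s).exp
  refine (dS_eq (a := B.sig0) (h1.add (B.hasDerivAt_SS s x))).trans ?_
  have := (B.SS_pos s x).ne'
  rw [sig0_eq, ← exp_neg_sq]
  field_simp
  ring

theorem dS_sig (s : ℝ) (x : E3) : dS B.sig s x =
    -(Real.exp (-s) / B.SS s x * B.sig0 s x) * B.ph s x + B.sig0 s x * dS B.ph s x := by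
  rw [← dS_sig0]
  exact dS_eq (a := B.sig) ((B.cd_sig0.hasDerivAt s x).mul (B.cd_ph.hasDerivAt s x))

theorem hasDerivAt_exp_Lam_rpow (c p s : ℝ) (x : E3) :
    HasDerivAt (fun t => Real.exp (c * t) * B.Lam t x ^ p)
      ((c - p * (Real.exp (-2 * s) / B.Lam s x ^ 2)) * (Real.exp (c * s) * B.Lam s x ^ p)) s := by
  have h0 := (B.Lam_pos s x).ne'
  have h := (hasDerivAt_exp_mul c s).mul ((B.hasDerivAt_Lam s x).rpow_const (p := p) (Or.inl h0))
  refine h.congr_deriv ?_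
  rw [Real.rpow_sub_one h0]
  field_simp
  ring

theorem dS_om (a s : ℝ) (x : E3) : dS (B.om a) s x =
    (-2 * a + (dd + 2 * a) * (Real.exp (-2 * s) / B.Lam s x ^ 2)) * B.om a s x := by
  refine (dS_eq (a := B.om a)
    (B.hasDerivAt_exp_Lam_rpow (-2 * a) (-(dd : ℝ) - 2 * a) s x)).trans ?_
  unfold om
  ring

theorem dS_mu (s : ℝ) (x : E3) : dS B.mu s x =
    (-B.r + B.r * (Real.exp (-2 * s) / B.Lam s x ^ 2)) * B.mu s x := by
  refine (dS_eq (a := B.mu) (B.hasDerivAt_exp_Lam_rpow (-B.r) (-B.r) s x)).trans ?_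
  unfold mu
  ring

/-- `exp (-2 s) / Lam ^ 2 ≤ mu`. -/
theorem ratio_le_mu (hr : B.r ≤ 2) (s : ℝ) (x : E3) :
    Real.exp (-2 * s) / B.Lam s x ^ 2 ≤ B.mu s x := by
  have e : Real.exp (-2 * s) / B.Lam s x ^ 2 = (Real.exp s * B.Lam s x) ^ (-2 : ℝ) := by
    rw [vp_rpow, Real.rpow_neg (B.Lam_pos s x).le, Real.rpow_two, div_eq_mul_inv]
  rw [e, mu_eq]
  exact Real.rpow_le_rpow_of_exponent_le (B.one_le_vp s x) (by linarith)

theorem dX_Lam (s : ℝ) (i : Ix) (x : E3) :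
    dX i (B.Lam s) x = dX i B.cut.rho2 x / (2 * B.Lam s x) := by
  have h1 := ((cd_dif B.cut.cd_rho2 i x).hasDerivAt.const_add (Real.exp (-2 * s))).sqrt
    (by simpa using (B.Lam2_pos s x).ne')
  refine (dX_eq (G := B.Lam s) h1.hd).trans ?_
  simp only [zero_smul, add_zero]
  rfl

theorem dX_SS (s : ℝ) (i : Ix) (x : E3) :
    dX i (B.SS s) x = B.nu ^ 2 * dX i B.cut.rho2 x / (2 * B.SS s x) := by
  have h1 := (((cd_dif B.cut.cd_rho2 i x).hasDerivAt.const_mul (B.nu ^ 2)).const_add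
    (Real.exp (-2 * s))).sqrt (by simpa using (B.SS2_pos s x).ne')
  refine (dX_eq (G := B.SS s) h1.hd).trans ?_
  simp only [zero_smul, add_zero]
  rfl

theorem dX_sig0 (s : ℝ) (i : Ix) (x : E3) :
    dX i (B.sig0 s) x = B.nu ^ 2 * dX i B.cut.rho2 x / (2 * B.SS s x) := by
  have h1 := ((cd_dif (B.cd_SS.slice s) i x).hasDerivAt.const_add (Real.exp (-s)))
  exact (dX_eq (G := B.sig0 s) h1.hd).trans (B.dX_SS s i x)

theorem dX_sig (s : ℝ) (i : Ix) (x : E3) :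
    dX i (B.sig s) x = dX i (B.sig0 s) x * B.ph s x + B.sig0 s x * dX i (B.ph s) x :=
  congrFun (dX_mul (B.cd_sig0.sm s).dif (B.cd_ph.sm s).dif i) x

theorem abs_dX_sig0_le {K : ℝ} (hK : ∀ i x, |dX i B.cut.rho2 x| ≤ K * √(B.cut.rho2 x))
    (hK0 : 0 ≤ K) (h0 : 0 ≤ B.nu) (s : ℝ) (i : Ix) (x : E3) :
    |dX i (B.sig0 s) x| ≤ K * B.nu := by
  have hS := B.SS_pos s x
  rw [dX_sig0, abs_div, abs_mul, abs_of_nonneg (sq_nonneg B.nu),
    abs_of_pos (by positivity : 0 < 2 * B.SS s x), div_le_iff₀ (by positivity)]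
  have h1 := mul_le_mul_of_nonneg_left (hK i x) (sq_nonneg B.nu)
  have h2 := mul_le_mul_of_nonneg_left (B.nu_sqrt_rho2_le_SS s x) (mul_nonneg hK0 h0)
  have h3 := mul_nonneg (mul_nonneg hK0 h0) hS.le
  nlinarith

end BgD

end Pool.Agent.BoltzM
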